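import Pool.Agent.X34.S2.Crude

set_option autoImplicit false

/-! Non-decreasing tuples and multisets. -/

namespace Pool.Agent.X34.S2

theorem esymm_one (s : Multiset ℕ) : s.esymm 1 = s.sum := by
  simp [Multiset.esymm, Multiset.powersetCard_one]

theorem esymm_cons_two (a : ℕ) (s : Multiset ℕ) : (a ::ₘ s).esymm 2 = s.esymm 2 + a * s.sum := by
  rw [← esymm_one]
  unfold Multiset.esymm
  rw [Multiset.powersetCard_cons, Multiset.map_add, Multiset.sum_add, Multiset.map_map]
  congr 1
  rw [← Multiset.sum_map_mul_left]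
  congr 1
  apply Multiset.map_congr rfl
  intro t _
  simp

theorem two_esymm (s : Multiset ℕ) :
    2 * s.esymm 2 + (s.map (fun y => y ^ 2)).sum = s.sum ^ 2 := by
  induction s using Multiset.induction_on with
  | empty => simp [Multiset.esymm, Multiset.powersetCard_zero_right]
  | cons a s ih =>
    rw [esymm_cons_two, Multiset.map_cons, Multiset.sum_cons, Multiset.sum_cons]
    nlinarith

theorem esymm_card (s : Multiset ℕ) : s.esymm s.card = s.prod := by
  unfold Multiset.esymm
  rw [Multiset.powersetCard_self]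
  simp

theorem sum_eq {Y : Multiset ℕ} (h : Big Y) : Y.sum = u Y + Y.card := by
  induction Y using Multiset.induction_on with
  | empty => simp [u]
  | cons a Y ih =>
    obtain ⟨ha, hY⟩ := h.of_cons
    rw [u_cons, Multiset.sum_cons, Multiset.card_cons, ih hY]
    omega

theorem sq_eq {Y : Multiset ℕ} (h : Big Y) : (Y.map (fun y => y ^ 2)).sum = v Y + Y.sum := by
  induction Y using Multiset.induction_on with
  | empty => simp [v]
  | cons a Y ih =>
    obtain ⟨ha, hY⟩ := h.of_cons
    rw [v_cons, Multiset.sum_cons, Multiset.map_cons, Multiset.sum_cons, ih hY]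
    obtain ⟨t, rfl⟩ := Nat.exists_eq_add_of_le ha
    have e : 2 + t - 1 = t + 1 := by omega
    rw [e]; ring

/-- Multisets of `n` positive integers with `σ₂ = σₙ`. -/
def Mul (n : ℕ) : Set (Multiset ℕ) :=
  {s | s.card = n ∧ (∀ a ∈ s, 0 < a) ∧ s.esymm 2 = s.esymm n}

theorem sol_iff {n k : ℕ} {Y : Multiset ℕ} (hB : Big Y) (hk : Y.card + k = n) (hn : 1 ≤ n) :
    (Y + Multiset.replicate k 1).esymm 2 = (Y + Multiset.replicate k 1).esymm n ↔
      2 * Y.prod + v Y = (n + u Y) * (n + u Y - 1) := by
  set s := Y + Multiset.replicate k 1 with hs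
  have hc : s.card = n := by rw [hs]; simp; exact hk
  have h1 : s.esymm n = Y.prod := by
    rw [← hc, esymm_card, hs]; simp
  have h2 := two_esymm s
  have h3 : s.sum = n + u Y := by
    rw [hs]; simp only [Multiset.sum_add, Multiset.sum_replicate, smul_eq_mul, mul_one]
    rw [sum_eq hB]; omega
  have h4 : (s.map (fun y => y ^ 2)).sum = v Y + (n + u Y) := by
    rw [← h3, hs]
    simp only [Multiset.map_add, Multiset.sum_add, Multiset.map_replicate, one_pow,
      Multiset.sum_replicate, smul_eq_mul, mul_one]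
    rw [sq_eq hB]; omega
  rw [h1]
  rw [h3, h4] at h2
  obtain ⟨w, hw⟩ : ∃ w, n + u Y = w + 1 := ⟨n + u Y - 1, by omega⟩
  rw [hw] at h2 ⊢
  have e : w + 1 - 1 = w := by omega
  rw [e]
  have e2 : (w + 1) ^ 2 = (w + 1) * w + (w + 1) := by ring
  constructor
  · intro h; rw [← h]; omega
  · intro h; omega

theorem split (s : Multiset ℕ) (hs : ∀ a ∈ s, 0 < a) :
    s = s.filter (fun y => 2 ≤ y) + Multiset.replicate (s.card - (s.filter (fun y => 2 ≤ y)).card) 1 := by
  have h1 := Multiset.filter_add_not (fun y => 2 ≤ y) s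
  have h2 : s.filter (fun y => ¬ 2 ≤ y) =
      Multiset.replicate (s.filter (fun y => ¬ 2 ≤ y)).card 1 := by
    rw [Multiset.eq_replicate]
    refine ⟨rfl, fun b hb => ?_⟩
    obtain ⟨h3, h4⟩ := Multiset.mem_filter.mp hb
    have := hs b h3
    omega
  have h3 : (s.filter (fun y => ¬ 2 ≤ y)).card = s.card - (s.filter (fun y => 2 ≤ y)).card := by
    have h4 := congrArg Multiset.card h1
    rw [Multiset.card_add] at h4
    omega
  rw [← h3, ← h2]
  exact h1.symm

theorem Mul_image {n : ℕ} (hn : 1 ≤ n) :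
    (fun Y : Multiset ℕ => Y + Multiset.replicate (n - Y.card) 1) '' Sol n = Mul n := by
  ext s
  constructor
  · rintro ⟨Y, ⟨hB, hc, hE⟩, rfl⟩
    refine ⟨?_, ?_, ?_⟩
    · simp only [Multiset.card_add, Multiset.card_replicate]; omega
    · intro a ha
      rcases Multiset.mem_add.mp ha with h | h
      · have := hB a h; omega
      · rw [Multiset.eq_of_mem_replicate h]; norm_num
    · exact (sol_iff hB (by omega) hn).mpr hE
  · rintro ⟨h1, h2, h3⟩
    have h4 := split s h2
    rw [h1] at h4
    have hB : Big (s.filter (fun y => 2 ≤ y)) := fun y hy => (Multiset.mem_filter.mp hy).2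
    have hc : (s.filter (fun y => 2 ≤ y)).card ≤ n := by
      rw [← h1]; exact Multiset.card_le_card (Multiset.filter_le _ _)
    refine ⟨s.filter (fun y => 2 ≤ y), ⟨hB, hc, ?_⟩, h4.symm⟩
    apply (sol_iff hB (k := n - (s.filter (fun y => 2 ≤ y)).card) (by omega) hn).mp
    rw [← h4]
    exact h3

theorem Mul_injOn (n : ℕ) : Set.InjOn
    (fun Y : Multiset ℕ => Y + Multiset.replicate (n - Y.card) 1) (Sol n) := by
  intro Y hY Z hZ h
  simp only at h
  have h1 := congrArg (Multiset.filter (fun y => 2 ≤ y)) h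
  rw [Multiset.filter_add, Multiset.filter_add] at h1
  have h2 : ∀ k : ℕ, Multiset.filter (fun y => 2 ≤ y) (Multiset.replicate k 1) = 0 := by
    intro k
    rw [Multiset.filter_eq_nil]
    intro a ha
    rw [Multiset.eq_of_mem_replicate ha]; norm_num
  rw [h2, h2, add_zero, add_zero, Multiset.filter_eq_self.mpr hY.1,
    Multiset.filter_eq_self.mpr hZ.1] at h1
  exact h1

theorem Mul_ncard {n : ℕ} (hn : 1 ≤ n) : (Mul n).ncard = (Sol n).ncard := by
  rw [← Mul_image hn]
  exact (Mul_injOn n).ncard_image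

end Pool.Agent.X34.S2
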