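import Pool.Agent.X34.S2.Count

set_option autoImplicit false

/-! Solutions of `σ₂ = σₙ`, written by their entries different from one. -/

namespace Pool.Agent.X34.S2

/-- The sum of `y - 1`. -/
def u (Y : Multiset ℕ) : ℕ := (Y.map (fun y => y - 1)).sum

/-- The sum of `y (y - 1)`. -/
def v (Y : Multiset ℕ) : ℕ := (Y.map (fun y => y * (y - 1))).sum

theorem u_zero : u 0 = 0 := rfl
theorem v_zero : v 0 = 0 := rfl
theorem u_cons (a : ℕ) (Y : Multiset ℕ) : u (a ::ₘ Y) = (a - 1) + u Y := by simp [u]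
theorem v_cons (a : ℕ) (Y : Multiset ℕ) : v (a ::ₘ Y) = a * (a - 1) + v Y := by simp [v]
theorem u_add (Y Z : Multiset ℕ) : u (Y + Z) = u Y + u Z := by simp [u]
theorem v_add (Y Z : Multiset ℕ) : v (Y + Z) = v Y + v Z := by simp [v]

theorem Big.cons {a : ℕ} {Y : Multiset ℕ} (ha : 2 ≤ a) (h : Big Y) : Big (a ::ₘ Y) := by
  intro y hy
  rcases Multiset.mem_cons.mp hy with h1 | h1
  · omega
  · exact h y h1

theorem Big.of_cons {a : ℕ} {Y : Multiset ℕ} (h : Big (a ::ₘ Y)) : 2 ≤ a ∧ Big Y :=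
  ⟨h a (Multiset.mem_cons_self _ _), fun y hy => h y (Multiset.mem_cons_of_mem hy)⟩

theorem Big.mono {Y Z : Multiset ℕ} (h : Big Y) (hle : Z ≤ Y) : Big Z :=
  fun y hy => h y (Multiset.mem_of_le hle hy)

theorem Big.add {Y Z : Multiset ℕ} (h : Big Y) (h' : Big Z) : Big (Y + Z) := by
  intro y hy
  rcases Multiset.mem_add.mp hy with h1 | h1
  · exact h y h1
  · exact h' y h1

theorem prod_ge {Y : Multiset ℕ} (h : Big Y) : u Y + 1 ≤ Y.prod := by
  induction Y using Multiset.induction_on with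
  | empty => simp [u]
  | cons a Y ih =>
    obtain ⟨ha, hY⟩ := h.of_cons
    have := ih hY
    rw [u_cons, Multiset.prod_cons]
    obtain ⟨t, rfl⟩ := Nat.exists_eq_add_of_le ha
    have e : 2 + t - 1 = t + 1 := by omega
    rw [e]
    nlinarith

theorem two_prod_ge {Y : Multiset ℕ} (h : Big Y) : (u Y + 1) * (u Y + 2) ≤ 2 * Y.prod + v Y := by
  induction Y using Multiset.induction_on with
  | empty => simp [u, v]
  | cons a Y ih =>
    obtain ⟨ha, hY⟩ := h.of_cons
    have h1 := ih hY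
    have h2 := prod_ge hY
    rw [u_cons, v_cons, Multiset.prod_cons]
    obtain ⟨t, rfl⟩ := Nat.exists_eq_add_of_le ha
    have e : 2 + t - 1 = t + 1 := by omega
    rw [e]
    nlinarith [Nat.mul_le_mul_left (t + 1) h2]

theorem v_le (Y : Multiset ℕ) : v Y ≤ u Y ^ 2 + u Y := by
  induction Y using Multiset.induction_on with
  | empty => simp [u, v]
  | cons a Y ih =>
    rw [u_cons, v_cons]
    rcases Nat.eq_zero_or_pos a with h0 | h0
    · subst h0; simpa using ih
    · obtain ⟨t, rfl⟩ := Nat.exists_eq_add_of_le h0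
      have e : 1 + t - 1 = t := by omega
      rw [e]
      nlinarith [Nat.zero_le (t * u Y)]

theorem v_two {Y : Multiset ℕ} (h : Big Y) (h2 : 2 ≤ Y.card) :
    v Y + 2 * u Y ≤ u Y ^ 2 + u Y + 2 := by
  induction Y using Multiset.induction_on with
  | empty => simp at h2
  | cons a Y ih =>
    obtain ⟨ha, hY⟩ := h.of_cons
    rw [u_cons, v_cons]
    obtain ⟨t, rfl⟩ := Nat.exists_eq_add_of_le ha
    have e : 2 + t - 1 = t + 1 := by omega
    rw [e]
    rcases Nat.lt_or_ge Y.card 2 with hlt | hge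
    · rw [Multiset.card_cons] at h2
      have h3 : Y.card = 1 := by omega
      obtain ⟨b, rfl⟩ := Multiset.card_eq_one.mp h3
      have hb : 2 ≤ b := hY b (Multiset.mem_singleton_self _)
      obtain ⟨r, rfl⟩ := Nat.exists_eq_add_of_le hb
      have e2 : 2 + r - 1 = r + 1 := by omega
      have e3 : u {2 + r} = r + 1 := by simp [u, e2]
      have e4 : v {2 + r} = (2 + r) * (r + 1) := by simp [v, e2]
      rw [e3, e4]
      nlinarith [Nat.zero_le (t * r)]
    · have h4 := ih hY hge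
      have h5 : 1 ≤ u Y := by
        obtain ⟨b, hb⟩ := Multiset.card_pos_iff_exists_mem.mp (by omega : 0 < Y.card)
        obtain ⟨Z, rfl⟩ := Multiset.exists_cons_of_mem hb
        rw [u_cons]
        have := hY b hb
        omega
      nlinarith [Nat.mul_le_mul_left t h5]

theorem u_le {Y : Multiset ℕ} {R : ℕ} (h : ∀ y ∈ Y, y ≤ R) : u Y ≤ Y.card * R := by
  induction Y using Multiset.induction_on with
  | empty => simp [u]
  | cons a Y ih =>
    have h1 := ih (fun y hy => h y (Multiset.mem_cons_of_mem hy))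
    have h2 := h a (Multiset.mem_cons_self _ _)
    rw [u_cons, Multiset.card_cons, add_mul, one_mul]
    omega

theorem v_le' {Y : Multiset ℕ} {R : ℕ} (h : ∀ y ∈ Y, y ≤ R) : v Y ≤ Y.card * R ^ 2 := by
  induction Y using Multiset.induction_on with
  | empty => simp [v]
  | cons a Y ih =>
    have h1 := ih (fun y hy => h y (Multiset.mem_cons_of_mem hy))
    have h2 := h a (Multiset.mem_cons_self _ _)
    rw [v_cons, Multiset.card_cons, add_mul, one_mul]
    have h3 : a * (a - 1) ≤ R ^ 2 := by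
      rw [sq]; exact Nat.mul_le_mul h2 (by omega)
    omega

theorem two_pow_card {Y : Multiset ℕ} (h : Big Y) : 2 ^ Y.card ≤ Y.prod := by
  induction Y using Multiset.induction_on with
  | empty => simp
  | cons a Y ih =>
    obtain ⟨ha, hY⟩ := h.of_cons
    rw [Multiset.card_cons, Multiset.prod_cons, pow_succ, mul_comm]
    exact Nat.mul_le_mul ha (ih hY)

/-- The entries different from one of the solutions with `n` entries. -/
def Sol (n : ℕ) : Set (Multiset ℕ) :=
  {Y | Big Y ∧ Y.card ≤ n ∧ 2 * Y.prod + v Y = (n + u Y) * (n + u Y - 1)}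

theorem exists_max {Y : Multiset ℕ} (h : Y ≠ 0) : ∃ z Y', Y = z ::ₘ Y' ∧ ∀ y ∈ Y', y ≤ z := by
  obtain ⟨w, hw⟩ := Multiset.exists_mem_of_ne_zero h
  obtain ⟨z, hz, hmax⟩ := Finset.exists_max_image Y.toFinset id ⟨w, Multiset.mem_toFinset.mpr hw⟩
  obtain ⟨Y', rfl⟩ := Multiset.exists_cons_of_mem (Multiset.mem_toFinset.mp hz)
  exact ⟨z, Y', rfl, fun y hy => hmax y (Multiset.mem_toFinset.mpr (Multiset.mem_cons_of_mem hy))⟩

/-- The facts about the largest entry `z` and the others. -/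
theorem main_facts {n z : ℕ} {Y : Multiset ℕ} (hn : 3 ≤ n) (h : z ::ₘ Y ∈ Sol n) :
    2 * Y.prod * z + v Y = (n - 1 + u Y) * (n - 2 + u Y) + 2 * (n - 1 + u Y) * z ∧
    n + u Y ≤ Y.prod ∧ 2 ≤ Y.card ∧ (u Y ≤ 4 * n ∨ z ≤ 2 * n) := by
  obtain ⟨hB, hcard, hE⟩ := h
  obtain ⟨hz, hY⟩ := hB.of_cons
  rw [Multiset.prod_cons, v_cons, u_cons] at hE
  obtain ⟨b, hb⟩ : ∃ b, n = b + 2 := ⟨n - 2, by omega⟩
  obtain ⟨t, ht⟩ : ∃ t, z = t + 1 := ⟨z - 1, by omega⟩
  subst hb ht
  have e1 : t + 1 - 1 = t := by omega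
  have e2 : b + 2 + (t + u Y) - 1 = b + 1 + t + u Y := by omega
  have e3 : b + 2 - 1 + u Y = b + 1 + u Y := by omega
  have e4 : b + 2 - 2 + u Y = b + u Y := by omega
  rw [e1, e2] at hE
  rw [e3, e4]
  set P := Y.prod
  set V := v Y with hV
  set U := u Y with hU
  have k1 : 2 * P * (t + 1) + V = (b + 1 + U) * (b + U) + 2 * (b + 1 + U) * (t + 1) := by
    nlinarith
  have hvle : V ≤ U ^ 2 + U := v_le Y
  have k2 : b + 2 + U ≤ P := by
    by_contra hlt
    push Not at hlt
    have h1 : P ≤ b + 1 + U := by omega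
    have h2 : 2 * P * (t + 1) ≤ 2 * (b + 1 + U) * (t + 1) :=
      Nat.mul_le_mul_right _ (Nat.mul_le_mul_left _ h1)
    have h3 : (b + 1 + U) * (b + U) ≤ V := by omega
    have h4 : 1 ≤ b := by omega
    nlinarith
  have k3 : 2 ≤ Y.card := by
    by_contra hlt
    push Not at hlt
    rcases Nat.lt_or_ge Y.card 1 with h1 | h1
    · have h2 : Y = 0 := Multiset.card_eq_zero.mp (by omega)
      have h3 : P = 1 := by simp [P, h2]
      omega
    · obtain ⟨w, hw⟩ := Multiset.card_eq_one.mp (by omega : Y.card = 1)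
      have h3 : P = w := by simp [P, hw]
      have h4 : U = w - 1 := by rw [hU, hw]; simp [u]
      have h5 : 2 ≤ w := hY w (by rw [hw]; exact Multiset.mem_singleton_self _)
      omega
  refine ⟨k1, k2, k3, ?_⟩
  by_contra hno
  push Not at hno
  obtain ⟨n1, n2⟩ := hno
  have T : (U + 1) * (U + 2) ≤ 2 * P + V := two_prod_ge hY
  have W : V + 2 * U ≤ U ^ 2 + U + 2 := v_two hY k3
  obtain ⟨w, hw⟩ : ∃ w, U ^ 2 + U = V + w := ⟨U ^ 2 + U - V, by omega⟩
  have W' : 2 * U ≤ w + 2 := by omega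
  -- t * w ≤ ...
  have q1 : t * w ≤ (b + 1) * b + 2 * b * U + 2 * b * (t + 1) := by
    have T' : (t + 1) * ((U + 1) * (U + 2)) ≤ (t + 1) * (2 * P + V) := Nat.mul_le_mul_left _ T
    have hw' : (t + 1) * (U ^ 2 + U) = (t + 1) * (V + w) := by rw [hw]
    nlinarith
  have q2 : t * (2 * U) ≤ t * (w + 2) := Nat.mul_le_mul_left _ W'
  have q3 : (2 * (b + 2)) * U ≤ t * U := Nat.mul_le_mul_right _ (by omega)
  have q4 : t * (4 * (b + 2) + 1) ≤ t * U := Nat.mul_le_mul_left _ (by omega)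
  have q5 : (2 * (b + 2)) * b ≤ t * b := Nat.mul_le_mul_right _ (by omega)
  nlinarith

end Pool.Agent.X34.S2
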