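import Mathlib

set_option autoImplicit false

/-! The number of points of a conic `s (s - 1) = D z ^ 2 - 2 z + e`. -/

namespace Pool.Agent.X34.S2

open Finset

theorem conic_unique {D e z1 s1 z2 s2 h g : ℤ} (hD : 5 ≤ D) (he : 0 ≤ e) (hz1 : 1 ≤ z1)
    (hz2 : 1 ≤ z2) (hh : 0 < h)
    (E1 : s1 * (s1 - 1) + 2 * z1 = D * z1 ^ 2 + e)
    (E1' : (s1 + g) * (s1 + g - 1) + 2 * (z1 + h) = D * (z1 + h) ^ 2 + e)
    (E2 : s2 * (s2 - 1) + 2 * z2 = D * z2 ^ 2 + e)
    (E2' : (s2 + g) * (s2 + g - 1) + 2 * (z2 + h) = D * (z2 + h) ^ 2 + e) : z1 = z2 := by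
  by_contra hne
  have hne' : z2 - z1 ≠ 0 := fun h => hne (by omega)
  have L1 : g * (2 * s1 + g - 1) = h * (D * (2 * z1 + h) - 2) := by linarith [E1, E1']
  have L2 : g * (2 * s2 + g - 1) = h * (D * (2 * z2 + h) - 2) := by linarith [E2, E2']
  have a1 : g * (s2 - s1) = h * D * (z2 - z1) := by linarith
  have b1 : (s2 - s1) * (s2 + s1 - 1) = (z2 - z1) * (D * (z1 + z2) - 2) := by linarith [E1, E2]
  have c1 : h * D * (s1 + s2 - 1) = g * (D * (z1 + z2) - 2) := by
    have h1 : (z2 - z1) * (h * D * (s1 + s2 - 1)) = (z2 - z1) * (g * (D * (z1 + z2) - 2)) := by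
      calc (z2 - z1) * (h * D * (s1 + s2 - 1)) = (h * D * (z2 - z1)) * (s2 + s1 - 1) := by ring
        _ = (g * (s2 - s1)) * (s2 + s1 - 1) := by rw [a1]
        _ = g * ((s2 - s1) * (s2 + s1 - 1)) := by ring
        _ = g * ((z2 - z1) * (D * (z1 + z2) - 2)) := by rw [b1]
        _ = _ := by ring
    exact mul_left_cancel₀ hne' h1
  have d1 : g * (s1 + s2 - 1) + g ^ 2 = h * (D * (z1 + z2) - 2) + D * h ^ 2 := by linarith
  have e1 : (g ^ 2 - D * h ^ 2) * ((D * (z1 + z2) - 2) + h * D) = 0 := by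
    have h2 : h * D * (g * (s1 + s2 - 1) + g ^ 2) = h * D * (h * (D * (z1 + z2) - 2) + D * h ^ 2) := by
      rw [d1]
    have h3 : g * (h * D * (s1 + s2 - 1)) = g * (g * (D * (z1 + z2) - 2)) := by rw [c1]
    linarith
  have f1 : 0 < (D * (z1 + z2) - 2) + h * D := by nlinarith
  have g1 : g ^ 2 = D * h ^ 2 := by
    rcases mul_eq_zero.mp e1 with h4 | h4
    · linarith
    · exact absurd h4 f1.ne'
  have h5 : g * (2 * s1 - 1) = h * (2 * D * z1 - 2) := by linarith
  have h6 : D * h ^ 2 * (2 * s1 - 1) ^ 2 = h ^ 2 * (2 * D * z1 - 2) ^ 2 := by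
    calc D * h ^ 2 * (2 * s1 - 1) ^ 2 = (g * (2 * s1 - 1)) ^ 2 := by rw [← g1]; ring
      _ = _ := by rw [h5]; ring
  have h7 : D * (2 * s1 - 1) ^ 2 = (2 * D * z1 - 2) ^ 2 := by
    have h8 : h ^ 2 * (D * (2 * s1 - 1) ^ 2) = h ^ 2 * (2 * D * z1 - 2) ^ 2 := by linarith
    exact mul_left_cancel₀ (pow_ne_zero 2 hh.ne') h8
  have h9 : D * (s1 * (s1 - 1) + 2 * z1) = D * (D * z1 ^ 2 + e) := by rw [E1]
  nlinarith

/-- The points of the conic. -/
noncomputable def Con (D e x Z : ℕ) : Finset ℕ :=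
  open Classical in (Finset.range (Z + 1)).filter
    (fun z => x ≤ z ∧ ∃ s : ℕ, 1 ≤ s ∧ s * (s - 1) + 2 * z = D * z ^ 2 + e)

theorem mem_Con {D e x Z z : ℕ} : z ∈ Con D e x Z ↔ z ≤ Z ∧ x ≤ z ∧
    ∃ s : ℕ, 1 ≤ s ∧ s * (s - 1) + 2 * z = D * z ^ 2 + e := by
  simp only [Con, Finset.mem_filter, Finset.mem_range, Nat.lt_succ_iff]

theorem con_bounds {D e x z s W : ℕ} (hD : 5 ≤ D) (hx : 1 ≤ x) (hxz : x ≤ z) (hW : 1 ≤ W)
    (he : (e : ℝ) ≤ (2 * W - 1) * Real.sqrt D * x)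
    (hs : 1 ≤ s) (E : s * (s - 1) + 2 * z = D * z ^ 2 + e) :
    Real.sqrt D * z - 1 ≤ s ∧ (s : ℝ) ≤ Real.sqrt D * z + W := by
  have E' : (s : ℝ) * (s - 1) + 2 * z = D * z ^ 2 + e := by
    have h1 : ((s * (s - 1) + 2 * z : ℕ) : ℝ) = ((D * z ^ 2 + e : ℕ) : ℝ) := by rw [E]
    push_cast [Nat.cast_sub hs] at h1
    exact h1
  have hd0 : (0 : ℝ) ≤ D := Nat.cast_nonneg D
  have hD5 : (5 : ℝ) ≤ D := by exact_mod_cast hD
  set d := Real.sqrt D with hd
  have hdd : d * d = D := Real.mul_self_sqrt hd0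
  have hd2 : 2 ≤ d := by
    rw [hd]; apply Real.le_sqrt_of_sq_le; linarith
  have hz1 : (1 : ℝ) ≤ z := by exact_mod_cast hx.trans hxz
  have hxz' : (x : ℝ) ≤ z := by exact_mod_cast hxz
  have hs1 : (1 : ℝ) ≤ s := by exact_mod_cast hs
  have hW1 : (1 : ℝ) ≤ W := by exact_mod_cast hW
  have hdz : 2 ≤ d * z := by nlinarith
  rw [← hdd] at E'
  constructor
  · by_contra hlt
    push Not at hlt
    -- s < d z - 1
    have h1 : (s : ℝ) * (s - 1) ≤ (d * z - 1) * (d * z - 1) := by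
      apply mul_le_mul hlt.le (by linarith) (by linarith) (by linarith)
    have h2 : 0 ≤ (e : ℝ) := Nat.cast_nonneg e
    have h3 : (s : ℝ) * (s - 1) < (d * z - 1) * (d * z - 1) := by
      have : (s : ℝ) * (s - 1) ≤ (d * z - 1) * (s - 1) :=
        mul_le_mul_of_nonneg_right hlt.le (by linarith)
      nlinarith
    nlinarith
  · by_contra hlt
    push Not at hlt
    have h1 : (d * z + W) * (d * z + W - 1) ≤ (s : ℝ) * (s - 1) := by
      apply mul_le_mul hlt.le (by linarith) (by linarith) (by linarith)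
    have h2 : (e : ℝ) ≤ (2 * W - 1) * d * z := by
      refine he.trans ?_
      apply mul_le_mul_of_nonneg_left hxz'
      apply mul_nonneg (by linarith) (by linarith)
    nlinarith [mul_nonneg (by linarith : (0 : ℝ) ≤ W) (by linarith : (0 : ℝ) ≤ (W : ℝ) - 1)]

theorem card_sep_le {H Z : ℕ} (hH : 1 ≤ H) (A : Finset ℕ) (hA : ∀ z ∈ A, z ≤ Z)
    (hsep : ∀ z ∈ A, ∀ z' ∈ A, z < z' → z + H < z') : A.card ≤ Z / H + 1 := by
  have h1 : Set.MapsTo (fun s => s / H) (A : Set ℕ) (Finset.range (Z / H + 1) : Finset ℕ) := by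
    intro s hs
    simp only [coe_range, Set.mem_Iio]
    have := Nat.div_le_div_right (c := H) (hA s hs)
    omega
  have h2 : Set.InjOn (fun s => s / H) (A : Set ℕ) := by
    intro s hs t ht he
    simp only at he
    have h6 := Nat.div_add_mod s H
    have h7 := Nat.div_add_mod t H
    have h8 := Nat.mod_lt s hH
    have h9 := Nat.mod_lt t hH
    rw [he] at h6
    rcases lt_trichotomy s t with h | h | h
    · have := hsep s hs t ht h
      omega
    · exact h
    · have := hsep t ht s hs h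
      omega
  simpa using Finset.card_le_card_of_injOn _ h1 h2

theorem card_Con_le {D e x Z W H : ℕ} (hD : 5 ≤ D) (hx : 1 ≤ x) (hW : 1 ≤ W) (hH : 1 ≤ H)
    (he : (e : ℝ) ≤ (2 * W - 1) * Real.sqrt D * x) :
    (Con D e x Z).card ≤ Z / H + 1 + H * (2 * W + 4) := by
  classical
  set A := Con D e x Z with hA
  set A1 := A.filter (fun z => ∃ z' ∈ A, z < z' ∧ z' ≤ z + H) with hA1
  set A2 := A.filter (fun z => ¬ ∃ z' ∈ A, z < z' ∧ z' ≤ z + H) with hA2
  have hcard : A.card = A1.card + A2.card := (Finset.card_filter_add_card_filter_not _).symm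
  have c2 : A2.card ≤ Z / H + 1 := by
    apply card_sep_le hH A2
    · intro z hz
      exact (mem_Con.mp (Finset.mem_filter.mp hz).1).1
    · intro z hz z' hz' hlt
      by_contra hle
      push Not at hle
      exact (Finset.mem_filter.mp hz).2 ⟨z', (Finset.mem_filter.mp hz').1, hlt, hle⟩
  -- choice of s
  have hs : ∀ z ∈ A, ∃ s : ℕ, 1 ≤ s ∧ s * (s - 1) + 2 * z = D * z ^ 2 + e := fun z hz =>
    (mem_Con.mp hz).2.2
  choose! s hs1 hsE using hs
  have hnx : ∀ z ∈ A1, ∃ z' ∈ A, z < z' ∧ z' ≤ z + H := fun z hz => (Finset.mem_filter.mp hz).2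
  choose! nx hnxA hnx1 hnx2 using hnx
  set T : Finset (ℕ × ℤ) := (Finset.Icc 1 H).biUnion (fun h =>
    (Finset.Icc ⌈Real.sqrt D * h - W - 1⌉ ⌊Real.sqrt D * h + W + 1⌋).image (fun g => (h, g))) with hT
  have cT : T.card ≤ H * (2 * W + 4) := by
    refine (Finset.card_biUnion_le_card_mul _ _ (2 * W + 4) ?_).trans (by simp)
    intro h _
    refine Finset.card_image_le.trans ?_
    rw [Int.card_Icc]
    have h1 := Int.le_ceil (Real.sqrt D * h - W - 1)
    have h2 := Int.floor_le (Real.sqrt D * h + W + 1)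
    have h3 : (⌊Real.sqrt D * h + W + 1⌋ : ℝ) - ⌈Real.sqrt D * h - W - 1⌉ ≤ 2 * W + 2 := by linarith
    have h4 : ⌊Real.sqrt D * h + W + 1⌋ - ⌈Real.sqrt D * h - W - 1⌉ ≤ 2 * (W : ℤ) + 2 := by
      exact_mod_cast h3
    omega
  have c1 : A1.card ≤ T.card := by
    apply Finset.card_le_card_of_injOn (fun z => (nx z - z, (s (nx z) : ℤ) - s z))
    · intro z hz
      have hz' : z ∈ A1 := hz
      have hzA : z ∈ A := (Finset.mem_filter.mp hz').1
      have k1 := hnxA z hz'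
      have k2 := hnx1 z hz'
      have k3 := hnx2 z hz'
      obtain ⟨b1, b2⟩ := con_bounds hD hx (mem_Con.mp hzA).2.1 hW he (hs1 z hzA) (hsE z hzA)
      obtain ⟨b3, b4⟩ := con_bounds hD hx (mem_Con.mp k1).2.1 hW he (hs1 _ k1) (hsE _ k1)
      simp only [hT, coe_biUnion, Set.mem_iUnion, coe_image, Set.mem_image]
      refine ⟨nx z - z, ?_, (s (nx z) : ℤ) - s z, ?_, rfl⟩
      · simp only [coe_Icc, Set.mem_Icc]; omega
      · have k4 : ((nx z - z : ℕ) : ℝ) = (nx z : ℝ) - z := by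
          rw [Nat.cast_sub k2.le]
        simp only [coe_Icc, Set.mem_Icc]
        constructor
        · rw [Int.ceil_le, k4]
          push_cast
          nlinarith
        · rw [Int.le_floor, k4]
          push_cast
          nlinarith
    · intro z hz y hy heq
      have hz' : z ∈ A1 := hz
      have hy' : y ∈ A1 := hy
      have hzA : z ∈ A := (Finset.mem_filter.mp hz').1
      have hyA : y ∈ A := (Finset.mem_filter.mp hy').1
      simp only [Prod.mk.injEq] at heq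
      obtain ⟨q1, q2⟩ := heq
      have cast : ∀ w ∈ A, ((s w : ℕ) : ℤ) * ((s w : ℤ) - 1) + 2 * (w : ℤ) = D * (w : ℤ) ^ 2 + e := by
        intro w hw
        have h1 : ((s w * (s w - 1) + 2 * w : ℕ) : ℤ) = ((D * w ^ 2 + e : ℕ) : ℤ) := by
          rw [hsE w hw]
        push_cast [Nat.cast_sub (hs1 w hw)] at h1
        exact h1
      have k2 := hnx1 z hz'
      have k2y := hnx1 y hy'
      have r1 : (nx z : ℤ) = z + ((nx z - z : ℕ) : ℤ) := by omega
      have r2 : (nx y : ℤ) = y + ((nx z - z : ℕ) : ℤ) := by rw [q1]; omega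
      have r3 : (s (nx z) : ℤ) = s z + ((s (nx z) : ℤ) - s z) := by ring
      have r4 : (s (nx y) : ℤ) = s y + ((s (nx z) : ℤ) - s z) := by rw [q2]; ring
      have u1 := cast _ hzA
      have u2 := cast _ (hnxA z hz')
      have u3 := cast _ hyA
      have u4 := cast _ (hnxA y hy')
      rw [r4, r2] at u4
      rw [r1] at u2
      have hz1 : (1 : ℤ) ≤ z := by
        have := (mem_Con.mp hzA).2.1
        omega
      have hy1 : (1 : ℤ) ≤ y := by
        have := (mem_Con.mp hyA).2.1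
        omega
      have := conic_unique (D := (D : ℤ)) (e := (e : ℤ)) (z1 := (z : ℤ)) (s1 := (s z : ℤ))
        (z2 := (y : ℤ)) (s2 := (s y : ℤ)) (h := ((nx z - z : ℕ) : ℤ))
        (g := (s (nx z) : ℤ) - s z) (by exact_mod_cast hD) (by positivity) hz1 hy1 (by omega)
        u1 (by rw [← r3]; exact u2) u3 u4
      exact_mod_cast this
  omega

end Pool.Agent.X34.S2
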