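import Mathlib

set_option autoImplicit false

/-! The number of multisets of integers at least two with product at most `X`. -/

namespace Pool.Agent.X34.S2

open Finset

/-- All members are at least two. -/
def Big (Y : Multiset ℕ) : Prop := ∀ y ∈ Y, 2 ≤ y

/-- Multisets of integers at least two with product at most `X`. -/
def MS (X : ℕ) : Set (Multiset ℕ) := {Y | Big Y ∧ Y.prod ≤ X}

def MSk (k X : ℕ) : Set (Multiset ℕ) := {Y | (∀ y ∈ Y, 2 ≤ y ∧ y ≤ k) ∧ Y.prod ≤ X}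

theorem Big.prod_pos {Y : Multiset ℕ} (h : Big Y) : 0 < Y.prod :=
  Multiset.prod_pos (fun y hy => by have := h y hy; omega)

theorem exp_ineq {x : ℝ} (h0 : 0 ≤ x) (h1 : x ≤ 1 / 2) : Real.exp (-(2 * x)) ≤ 1 - x := by
  rw [Real.exp_neg]
  have h2 : 1 + 2 * x ≤ Real.exp (2 * x) := by linarith [Real.add_one_le_exp (2 * x)]
  have h3 : (0 : ℝ) < 1 + 2 * x := by linarith
  calc (Real.exp (2 * x))⁻¹ ≤ (1 + 2 * x)⁻¹ := inv_anti₀ h3 h2
    _ ≤ 1 - x := by
      rw [inv_le_iff_one_le_mul₀ h3]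
      nlinarith

/-- The constants of the induction. -/
noncomputable def cc (σ : ℝ) (k : ℕ) : ℝ := Real.exp (2 * ∑ i ∈ Finset.Icc 2 k, ((i : ℝ) ^ σ)⁻¹)

theorem cc_succ (σ : ℝ) (hσ : 1 ≤ σ) (k : ℕ) (hk : 1 ≤ k) :
    cc σ k + cc σ (k + 1) * (((k + 1 : ℕ) : ℝ) ^ σ)⁻¹ ≤ cc σ (k + 1) := by
  have h1 : ∑ i ∈ Finset.Icc 2 (k + 1), ((i : ℝ) ^ σ)⁻¹ =
      ∑ i ∈ Finset.Icc 2 k, ((i : ℝ) ^ σ)⁻¹ + (((k + 1 : ℕ) : ℝ) ^ σ)⁻¹ :=
    Finset.sum_Icc_succ_top (by omega) _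
  set x := (((k + 1 : ℕ) : ℝ) ^ σ)⁻¹ with hx
  have hx0 : 0 ≤ x := by positivity
  have hx1 : x ≤ 1 / 2 := by
    rw [hx, one_div]
    apply inv_anti₀ (by norm_num)
    have h2 : (2 : ℝ) ≤ ((k + 1 : ℕ) : ℝ) := by exact_mod_cast (by omega : 2 ≤ k + 1)
    calc (2 : ℝ) ≤ ((k + 1 : ℕ) : ℝ) := h2
      _ = ((k + 1 : ℕ) : ℝ) ^ (1 : ℝ) := (Real.rpow_one _).symm
      _ ≤ ((k + 1 : ℕ) : ℝ) ^ σ := Real.rpow_le_rpow_of_exponent_le (by linarith) hσ
  have h3 : cc σ k = cc σ (k + 1) * Real.exp (-(2 * x)) := by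
    unfold cc
    rw [← Real.exp_add, h1]
    congr 1; ring
  have h4 : 0 < cc σ (k + 1) := Real.exp_pos _
  rw [h3]
  have := mul_le_mul_of_nonneg_left (exp_ineq hx0 hx1) h4.le
  linarith

theorem MSk_zero (k : ℕ) : MSk k 0 = ∅ := by
  ext Y
  simp only [MSk, Set.mem_setOf_eq, Set.mem_empty_iff_false, iff_false, not_and]
  intro h1 h2
  have : 0 < Y.prod := Big.prod_pos (fun y hy => (h1 y hy).1)
  omega

theorem MSk_one (X : ℕ) : MSk 1 X ⊆ {0} := by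
  intro Y hY
  rw [Set.mem_singleton_iff]
  rcases Y.empty_or_exists_mem with h | ⟨y, hy⟩
  · exact h
  · have := hY.1 y hy
    omega

theorem MSk_succ (k X : ℕ) (hk : 1 ≤ k) :
    MSk (k + 1) X ⊆ MSk k X ∪ (fun Z => (k + 1) ::ₘ Z) '' (MSk (k + 1) (X / (k + 1))) := by
  intro Y hY
  by_cases h : (k + 1) ∈ Y
  · right
    obtain ⟨Z, rfl⟩ := Multiset.exists_cons_of_mem h
    refine ⟨Z, ⟨fun y hy => hY.1 y (Multiset.mem_cons_of_mem hy), ?_⟩, rfl⟩
    have h1 := hY.2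
    rw [Multiset.prod_cons] at h1
    rw [Nat.le_div_iff_mul_le (by omega), mul_comm]
    exact h1
  · left
    refine ⟨fun y hy => ?_, hY.2⟩
    have h1 := hY.1 y hy
    have h2 : y ≠ k + 1 := fun h2 => h (h2 ▸ hy)
    omega

theorem MSk_bound (σ : ℝ) (hσ : 1 ≤ σ) (k : ℕ) (hk : 1 ≤ k) :
    ∀ X : ℕ, (MSk k X).Finite ∧ ((MSk k X).ncard : ℝ) ≤ cc σ k * (X : ℝ) ^ σ := by
  induction k, hk using Nat.le_induction with
  | base =>
    intro X
    have hf : (MSk 1 X).Finite := (Set.finite_singleton _).subset (MSk_one X)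
    refine ⟨hf, ?_⟩
    rcases Nat.eq_zero_or_pos X with h0 | h0
    · subst h0
      rw [MSk_zero]
      simp only [Set.ncard_empty, Nat.cast_zero]
      have : 0 < cc σ 1 := Real.exp_pos _
      have := Real.rpow_nonneg (le_refl (0 : ℝ)) σ
      positivity
    · have h1 : (MSk 1 X).ncard ≤ 1 := by
        have := Set.ncard_le_ncard (MSk_one X) (Set.finite_singleton _)
        simpa using this
      have h2 : ((MSk 1 X).ncard : ℝ) ≤ 1 := by exact_mod_cast h1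
      have h3 : (1 : ℝ) ≤ (X : ℝ) ^ σ := Real.one_le_rpow (by exact_mod_cast h0) (by linarith)
      have h4 : cc σ 1 = 1 := by unfold cc; simp
      rw [h4, one_mul]
      exact h2.trans h3
  | succ k hk ih =>
    intro X
    induction X using Nat.strong_induction_on with
    | _ X ihX =>
      rcases Nat.eq_zero_or_pos X with h0 | h0
      · subst h0
        rw [MSk_zero]
        refine ⟨Set.finite_empty, ?_⟩
        simp only [Set.ncard_empty, Nat.cast_zero]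
        have : 0 < cc σ (k + 1) := Real.exp_pos _
        have := Real.rpow_nonneg (le_refl (0 : ℝ)) σ
        positivity
      · have hlt : X / (k + 1) < X := Nat.div_lt_self h0 (by omega)
        obtain ⟨f1, b1⟩ := ih X
        obtain ⟨f2, b2⟩ := ihX _ hlt
        have f3 : (MSk k X ∪ (fun Z => (k + 1) ::ₘ Z) '' (MSk (k + 1) (X / (k + 1)))).Finite :=
          f1.union (f2.image _)
        refine ⟨f3.subset (MSk_succ k X hk), ?_⟩
        have h1 := Set.ncard_le_ncard (MSk_succ k X hk) f3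
        have h2 := Set.ncard_union_le (MSk k X) ((fun Z => (k + 1) ::ₘ Z) '' (MSk (k + 1) (X / (k + 1))))
        have h3 := Set.ncard_image_le (f := fun Z => (k + 1) ::ₘ Z) f2
        have h4 : ((MSk (k + 1) X).ncard : ℝ) ≤ (MSk k X).ncard + (MSk (k + 1) (X / (k + 1))).ncard := by
          exact_mod_cast h1.trans (h2.trans (Nat.add_le_add_left h3 _))
        have h5 : ((X / (k + 1) : ℕ) : ℝ) ^ σ ≤ (X : ℝ) ^ σ * (((k + 1 : ℕ) : ℝ) ^ σ)⁻¹ := by
          rw [← div_eq_mul_inv, ← Real.div_rpow (by positivity) (by positivity)]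
          apply Real.rpow_le_rpow (by positivity) _ (by linarith)
          exact Nat.cast_div_le
        have hc : 0 < cc σ (k + 1) := Real.exp_pos _
        have hX : 0 ≤ (X : ℝ) ^ σ := Real.rpow_nonneg (by positivity) _
        have h6 := cc_succ σ hσ k hk
        calc ((MSk (k + 1) X).ncard : ℝ) ≤ (MSk k X).ncard + (MSk (k + 1) (X / (k + 1))).ncard := h4
          _ ≤ cc σ k * (X : ℝ) ^ σ + cc σ (k + 1) * ((X / (k + 1) : ℕ) : ℝ) ^ σ := add_le_add b1 b2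
          _ ≤ cc σ k * (X : ℝ) ^ σ + cc σ (k + 1) * ((X : ℝ) ^ σ * (((k + 1 : ℕ) : ℝ) ^ σ)⁻¹) :=
            add_le_add_right (mul_le_mul_of_nonneg_left h5 hc.le) _
          _ = (cc σ k + cc σ (k + 1) * (((k + 1 : ℕ) : ℝ) ^ σ)⁻¹) * (X : ℝ) ^ σ := by ring
          _ ≤ cc σ (k + 1) * (X : ℝ) ^ σ := mul_le_mul_of_nonneg_right h6 hX

theorem MS_sub (X : ℕ) : MS X ⊆ MSk (X + 1) X := by
  intro Y hY
  refine ⟨fun y hy => ⟨hY.1 y hy, ?_⟩, hY.2⟩
  have h1 := Nat.le_of_dvd hY.1.prod_pos (Multiset.dvd_prod hy)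
  have := hY.2
  omega

theorem MS_finite (X : ℕ) : (MS X).Finite :=
  ((MSk_bound 1 le_rfl (X + 1) (by omega) X).1).subset (MS_sub X)

/-- For large `K` and all `X ≤ K ^ k` there are at most `K X` multisets of integers at least two
with product at most `X`. -/
theorem MS_card (k : ℕ) (hk : 1 ≤ k) : ∃ K0 : ℕ, ∀ K ≥ K0, ∀ X : ℕ, X ≤ K ^ k →
    (MS X).ncard ≤ K * X := by
  set ε : ℝ := 1 / (2 * k) with hε
  have hk' : (0 : ℝ) < k := by exact_mod_cast hk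
  have hε0 : 0 < ε := by positivity
  set σ : ℝ := 1 + ε with hσ
  have hs : Summable (fun i : ℕ => ((i : ℝ) ^ σ)⁻¹) := Real.summable_nat_rpow_inv.mpr (by linarith)
  set C : ℝ := Real.exp (2 * ∑' i : ℕ, ((i : ℝ) ^ σ)⁻¹) with hC
  have hC0 : 0 < C := Real.exp_pos _
  obtain ⟨K0, hK0⟩ := exists_nat_ge (C ^ 2)
  refine ⟨K0 + 1, fun K hK X hX => ?_⟩
  have hKpos : (0 : ℝ) < K := by exact_mod_cast (by omega : 0 < K)
  have hCK : C ≤ (K : ℝ) ^ (1 / 2 : ℝ) := by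
    rw [← Real.sqrt_eq_rpow]
    apply Real.le_sqrt_of_sq_le
    have : (K0 : ℝ) ≤ K := by exact_mod_cast (by omega : K0 ≤ K)
    linarith
  have h1 : (MS X).ncard ≤ (MSk (X + 1) X).ncard :=
    Set.ncard_le_ncard (MS_sub X) (MSk_bound σ (by linarith) (X + 1) (by omega) X).1
  have h2 := (MSk_bound σ (by linarith) (X + 1) (by omega) X).2
  have h3 : cc σ (X + 1) ≤ C := by
    unfold cc
    apply Real.exp_le_exp.mpr
    apply mul_le_mul_of_nonneg_left _ (by norm_num)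
    exact hs.sum_le_tsum _ (fun i _ => by positivity)
  have h4 : (X : ℝ) ^ σ ≤ X * (K : ℝ) ^ (1 / 2 : ℝ) := by
    rcases Nat.eq_zero_or_pos X with h0 | h0
    · subst h0
      rw [Nat.cast_zero, Real.zero_rpow (by linarith), zero_mul]
    · have hXpos : (0 : ℝ) < X := by exact_mod_cast h0
      rw [hσ, Real.rpow_add hXpos, Real.rpow_one]
      apply mul_le_mul_of_nonneg_left _ hXpos.le
      calc (X : ℝ) ^ ε ≤ ((K : ℝ) ^ k) ^ ε := by
            apply Real.rpow_le_rpow hXpos.le _ hε0.le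
            exact_mod_cast hX
        _ = (K : ℝ) ^ (1 / 2 : ℝ) := by
            rw [← Real.rpow_natCast, ← Real.rpow_mul hKpos.le]
            congr 1
            rw [hε]; field_simp
  have h5 : (K : ℝ) ^ (1 / 2 : ℝ) * (K : ℝ) ^ (1 / 2 : ℝ) = K := by
    rw [← Real.rpow_add hKpos]; norm_num
  have h6 : ((MS X).ncard : ℝ) ≤ ((K * X : ℕ) : ℝ) := by
    have hX0 : (0 : ℝ) ≤ X := Nat.cast_nonneg X
    have hK12 : (0 : ℝ) ≤ (K : ℝ) ^ (1 / 2 : ℝ) := Real.rpow_nonneg hKpos.le _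
    calc ((MS X).ncard : ℝ) ≤ (MSk (X + 1) X).ncard := by exact_mod_cast h1
      _ ≤ cc σ (X + 1) * (X : ℝ) ^ σ := h2
      _ ≤ C * (X : ℝ) ^ σ := mul_le_mul_of_nonneg_right h3 (Real.rpow_nonneg hX0 _)
      _ ≤ (K : ℝ) ^ (1 / 2 : ℝ) * (X * (K : ℝ) ^ (1 / 2 : ℝ)) :=
        mul_le_mul hCK h4 (Real.rpow_nonneg hX0 _) hK12
      _ = ((K : ℝ) ^ (1 / 2 : ℝ) * (K : ℝ) ^ (1 / 2 : ℝ)) * X := by ring
      _ = ((K * X : ℕ) : ℝ) := by rw [h5]; push_cast; ring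
  exact_mod_cast h6

end Pool.Agent.X34.S2
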