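import Pool.Agent.X34.S2.Basic

set_option autoImplicit false

/-! Size bounds for solutions. -/

namespace Pool.Agent.X34.S2

theorem crude {n z : ℕ} {Y : Multiset ℕ} (hn : 3 ≤ n) (h : z ::ₘ Y ∈ Sol n)
    (hz : ∀ y ∈ Y, y ≤ z) : Y.prod ≤ 30 * n ^ 4 ∧ z ≤ 25 * n ^ 4 := by
  obtain ⟨h1, h2, h3, h4⟩ := main_facts hn h
  obtain ⟨hz2, hY⟩ := h.1.of_cons
  have hcard : Y.card + 1 ≤ n := by simpa using h.2.1
  have hU : u Y ≤ 4 * n ^ 2 := by
    rcases h4 with h5 | h5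
    · nlinarith
    · have h6 := u_le hz
      calc u Y ≤ Y.card * z := h6
        _ ≤ n * (2 * n) := Nat.mul_le_mul (by omega) h5
        _ ≤ 4 * n ^ 2 := by nlinarith
  obtain ⟨b, hb⟩ : ∃ b, n = b + 2 := ⟨n - 2, by omega⟩
  have e3 : n - 1 + u Y = b + 1 + u Y := by omega
  have e4 : n - 2 + u Y = b + u Y := by omega
  rw [e3, e4] at h1
  set U := u Y with hUdef
  set P := Y.prod
  set a := b + 1 + U with ha
  have ha5 : a ≤ 5 * n ^ 2 := by
    have : n ≤ n ^ 2 := by nlinarith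
    omega
  have h1' : 2 * P * z + v Y ≤ a * a + 2 * a * z := by
    have : (b + U) ≤ a := by omega
    have := Nat.mul_le_mul_left a this
    omega
  have haP : a + 1 ≤ P := by omega
  constructor
  · have h6 : P ≤ a * a + a := by
      by_contra hlt
      push Not at hlt
      have h7 : 2 * (a * a + a + 1) * z ≤ 2 * P * z :=
        Nat.mul_le_mul_right _ (Nat.mul_le_mul_left _ hlt)
      nlinarith [Nat.mul_le_mul_left (a * a) hz2]
    have h8 : a * a ≤ (5 * n ^ 2) * (5 * n ^ 2) := Nat.mul_le_mul ha5 ha5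
    have h9 : n ^ 2 ≤ n ^ 4 := Nat.pow_le_pow_right (by omega) (by omega)
    nlinarith
  · have h6 : 2 * (a + 1) * z ≤ 2 * P * z := Nat.mul_le_mul_right _ (Nat.mul_le_mul_left _ haP)
    have h8 : a * a ≤ (5 * n ^ 2) * (5 * n ^ 2) := Nat.mul_le_mul ha5 ha5
    nlinarith

theorem Sol_ne_zero {n : ℕ} (hn : 3 ≤ n) {Y : Multiset ℕ} (h : Y ∈ Sol n) : Y ≠ 0 := by
  rintro rfl
  obtain ⟨b, hb⟩ : ∃ b, n = b + 3 := ⟨n - 3, by omega⟩
  have := h.2.2
  simp only [Multiset.prod_zero, v_zero, u_zero] at this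
  subst hb
  have e : b + 3 + 0 - 1 = b + 2 := by omega
  rw [e] at this
  nlinarith

theorem Sol_prod_le {n : ℕ} (hn : 3 ≤ n) {Y : Multiset ℕ} (h : Y ∈ Sol n) :
    Y.prod ≤ 750 * n ^ 8 := by
  obtain ⟨z, Y', rfl, hz⟩ := exists_max (Sol_ne_zero hn h)
  obtain ⟨h1, h2⟩ := crude hn h hz
  rw [Multiset.prod_cons]
  calc z * Y'.prod ≤ (25 * n ^ 4) * (30 * n ^ 4) := Nat.mul_le_mul h2 h1
    _ = 750 * n ^ 8 := by ring

theorem Sol_finite {n : ℕ} (hn : 3 ≤ n) : (Sol n).Finite :=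
  (MS_finite (750 * n ^ 8)).subset (fun _ hY => ⟨hY.1, Sol_prod_le hn hY⟩)

theorem exists_pow_lt (k : ℕ) : ∃ K0 : ℕ, ∀ K ≥ K0, K ^ k < 2 ^ K := by
  have h := tendsto_pow_const_div_const_pow_of_one_lt k (r := (2 : ℝ)) (by norm_num)
  have h1 := h.eventually (gt_mem_nhds (by norm_num : (0 : ℝ) < 1))
  obtain ⟨K0, hK0⟩ := Filter.eventually_atTop.mp h1
  refine ⟨K0, fun K hK => ?_⟩
  have h2 := hK0 K hK
  rw [div_lt_one (by positivity)] at h2
  exact_mod_cast h2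

/-- For large `K` solutions with `n < 2 K ^ 80` have fewer than `K` entries different from one. -/
theorem card_lt : ∃ K0 : ℕ, ∀ K ≥ K0, ∀ n : ℕ, 3 ≤ n → n < 2 * K ^ 80 → ∀ Y ∈ Sol n,
    Y.card < K := by
  obtain ⟨K0, hK0⟩ := exists_pow_lt 641
  refine ⟨K0 + 192000, fun K hK n hn hn2 Y hY => ?_⟩
  by_contra hge
  push Not at hge
  have h1 := hK0 K (by omega)
  have h2 : 2 ^ K ≤ 2 ^ Y.card := Nat.pow_le_pow_right (by norm_num) hge
  have h3 := two_pow_card hY.1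
  have h4 := Sol_prod_le hn hY
  have h5 : n ^ 8 ≤ (2 * K ^ 80) ^ 8 := Nat.pow_le_pow_left hn2.le 8
  have h6 : (2 * K ^ 80) ^ 8 = 256 * K ^ 640 := by
    rw [mul_pow, ← pow_mul]; norm_num
  have h7 : 192000 * K ^ 640 ≤ K * K ^ 640 := Nat.mul_le_mul_right _ (by omega)
  have h8 : K * K ^ 640 = K ^ 641 := by rw [← pow_succ']
  omega

/-- The bound for the other entries when the largest one is at least `K ^ 6`. -/
theorem large_prod {K n z : ℕ} {Y : Multiset ℕ} (hK : 6 ≤ K) (hn : 3 ≤ n) (hn2 : n < 2 * K ^ 80)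
    (h : z ::ₘ Y ∈ Sol n) (hz : ∀ y ∈ Y, y ≤ z) (hc : Y.card ≤ K) (hz6 : K ^ 6 ≤ z) :
    Y.prod ≤ 19 * K ^ 156 := by
  obtain ⟨h1, h2, h3, h4⟩ := main_facts hn h
  have hU : u Y ≤ 2 * n * K := by
    rcases h4 with h5 | h5
    · nlinarith
    · have h6 := u_le hz
      calc u Y ≤ Y.card * z := h6
        _ ≤ K * (2 * n) := Nat.mul_le_mul hc h5
        _ = 2 * n * K := by ring
  obtain ⟨b, hb⟩ : ∃ b, n = b + 2 := ⟨n - 2, by omega⟩
  have e3 : n - 1 + u Y = b + 1 + u Y := by omega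
  have e4 : n - 2 + u Y = b + u Y := by omega
  rw [e3, e4] at h1
  set U := u Y with hUdef
  set P := Y.prod
  set a := b + 1 + U with ha
  have ha5 : a ≤ 6 * K ^ 81 := by
    have q1 : n ≤ n * K := Nat.le_mul_of_pos_right _ (by omega)
    have q2 : n * K ≤ (2 * K ^ 80) * K := Nat.mul_le_mul_right _ hn2.le
    have q3 : (2 * K ^ 80) * K = 2 * K ^ 81 := by ring
    have q4 : 2 * n * K = 2 * (n * K) := by ring
    omega
  have h1' : 2 * P * z ≤ a * a + 2 * a * z := by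
    have : (b + U) ≤ a := by omega
    have := Nat.mul_le_mul_left a this
    omega
  have h5 : a * a ≤ 36 * K ^ 156 * z := by
    calc a * a ≤ (6 * K ^ 81) * (6 * K ^ 81) := Nat.mul_le_mul ha5 ha5
      _ = 36 * K ^ 156 * K ^ 6 := by ring
      _ ≤ 36 * K ^ 156 * z := Nat.mul_le_mul_left _ hz6
  have h6 : 2 * a * z ≤ 2 * K ^ 156 * z := by
    apply Nat.mul_le_mul_right
    have q1 : 6 * K ^ 81 ≤ K * K ^ 81 := Nat.mul_le_mul_right _ hK
    have q2 : K * K ^ 81 = K ^ 82 := by ring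
    have q3 : K ^ 82 ≤ K ^ 156 := Nat.pow_le_pow_right (by omega) (by omega)
    omega
  have h7 : 2 * P * z ≤ (38 * K ^ 156) * z := by
    calc 2 * P * z ≤ a * a + 2 * a * z := h1'
      _ ≤ 36 * K ^ 156 * z + 2 * K ^ 156 * z := Nat.add_le_add h5 h6
      _ = _ := by ring
  have h8 : 0 < z := by
    have : 0 < K ^ 6 := Nat.pow_pos (by omega)
    omega
  have h9 := Nat.le_of_mul_le_mul_right h7 h8
  omega

/-- Splitting off a part with product just below `M`. -/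
theorem greedy {M R : ℕ} (hM : 1 ≤ M) {Y : Multiset ℕ} (hR : ∀ y ∈ Y, y ≤ R)
    (h : M < Y.prod) : ∃ Z, Z ≤ Y ∧ Z.prod ≤ M ∧ M < R * Z.prod := by
  induction Y using Multiset.induction_on with
  | empty => simp at h; omega
  | cons a Y ih =>
    rcases Nat.lt_or_ge M Y.prod with h1 | h1
    · obtain ⟨Z, z1, z2, z3⟩ := ih (fun y hy => hR y (Multiset.mem_cons_of_mem hy)) h1
      exact ⟨Z, z1.trans (Multiset.le_cons_self _ _), z2, z3⟩
    · refine ⟨Y, Multiset.le_cons_self _ _, h1, ?_⟩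
      rw [Multiset.prod_cons] at h
      have := Nat.mul_le_mul_right Y.prod (hR a (Multiset.mem_cons_self _ _))
      omega

end Pool.Agent.X34.S2
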