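import Mathlib

set_option autoImplicit false

/-! A divisor bound and the number of roots of `s (s - 1) = v` modulo `a` in an interval. -/

namespace Pool.Agent.X34.S2

open Finset

theorem succ_pow_le (k : ℕ) : ∃ A : ℕ, 1 ≤ A ∧ ∀ e : ℕ, (e + 1) ^ k ≤ A * 2 ^ e := by
  have h := tendsto_pow_const_div_const_pow_of_one_lt k (r := (2 : ℝ)) (by norm_num)
  obtain ⟨B, hB⟩ := h.bddAbove_range
  obtain ⟨A, hA⟩ := exists_nat_ge (2 * B)
  refine ⟨A + 1, by omega, fun e => ?_⟩
  have h1 : ((e + 1 : ℕ) : ℝ) ^ k / 2 ^ (e + 1) ≤ B := hB ⟨e + 1, rfl⟩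
  rw [div_le_iff₀ (by positivity)] at h1
  have h2 : (((e + 1) ^ k : ℕ) : ℝ) ≤ (((A + 1) * 2 ^ e : ℕ) : ℝ) := by
    push_cast at h1 ⊢
    have h3 : (0 : ℝ) < 2 ^ e := by positivity
    rw [pow_succ] at h1
    nlinarith
  exact_mod_cast h2

/-- `τ(n)^k ≤ C n`. -/
theorem divisor_bound (k : ℕ) : ∃ C : ℕ, 1 ≤ C ∧ ∀ n : ℕ, n ≠ 0 → n.divisors.card ^ k ≤ C * n := by
  obtain ⟨A, hA1, hA⟩ := succ_pow_le k
  refine ⟨A ^ (2 ^ k), Nat.one_le_pow _ _ hA1, fun n hn => ?_⟩
  rw [Nat.card_divisors hn, ← Finset.prod_pow]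
  have h1 : ∀ p ∈ n.primeFactors, (n.factorization p + 1) ^ k ≤
      (if p < 2 ^ k then A else 1) * p ^ n.factorization p := by
    intro p hp
    have hpp := Nat.prime_of_mem_primeFactors hp
    split_ifs with h
    · refine (hA _).trans (Nat.mul_le_mul_left _ ?_)
      exact Nat.pow_le_pow_left hpp.two_le _
    · rw [one_mul]
      have h2 : n.factorization p + 1 ≤ 2 ^ n.factorization p := Nat.lt_two_pow_self
      calc (n.factorization p + 1) ^ k ≤ (2 ^ n.factorization p) ^ k := Nat.pow_le_pow_left h2 k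
        _ = (2 ^ k) ^ n.factorization p := by rw [← pow_mul, mul_comm, pow_mul]
        _ ≤ p ^ n.factorization p := Nat.pow_le_pow_left (not_lt.mp h) _
  refine (Finset.prod_le_prod' h1).trans ?_
  rw [Finset.prod_mul_distrib]
  have h2 : ∏ p ∈ n.primeFactors, p ^ n.factorization p = n :=
    Nat.prod_factorization_pow_eq_self hn
  rw [h2]
  apply Nat.mul_le_mul_right
  rw [Finset.prod_ite, Finset.prod_const_one, mul_one, Finset.prod_const]
  apply Nat.pow_le_pow_right hA1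
  have h3 : (n.primeFactors.filter (fun p => p < 2 ^ k)) ⊆ Finset.range (2 ^ k) := by
    intro p hp
    exact Finset.mem_range.mpr (Finset.mem_filter.mp hp).2
  simpa using Finset.card_le_card h3

/-- For large `K`, all `n ≤ K ^ k` have at most `K` divisors. -/
theorem divisors_le (k : ℕ) : ∃ K0 : ℕ, ∀ K ≥ K0, ∀ n : ℕ, n ≤ K ^ k → n.divisors.card ≤ K := by
  obtain ⟨C, hC1, hC⟩ := divisor_bound (k + 1)
  refine ⟨C, fun K hK n hn => ?_⟩
  rcases Nat.eq_zero_or_pos n with h0 | h0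
  · subst h0; simp
  · by_contra hlt
    push Not at hlt
    have h1 := hC n h0.ne'
    have h2 : K ^ (k + 1) < n.divisors.card ^ (k + 1) := Nat.pow_lt_pow_left hlt (by omega)
    have h3 : C * n ≤ K * K ^ k := Nat.mul_le_mul hK hn
    have h4 : K ^ (k + 1) = K * K ^ k := by ring
    omega

/-- Elements of `[0, M]` pairwise congruent modulo `L`. -/
theorem card_congr_le {M L : ℕ} (hL : 0 < L) (R : Finset ℕ) (hR : ∀ s ∈ R, s ≤ M)
    (hc : ∀ s ∈ R, ∀ t ∈ R, (L : ℤ) ∣ (s : ℤ) - t) : R.card ≤ M / L + 1 := by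
  have h1 : Set.MapsTo (fun s => s / L) (R : Set ℕ) (Finset.range (M / L + 1) : Finset ℕ) := by
    intro s hs
    simp only [coe_range, Set.mem_Iio]
    have := Nat.div_le_div_right (c := L) (hR s hs)
    omega
  have h2 : Set.InjOn (fun s => s / L) (R : Set ℕ) := by
    intro s hs t ht he
    simp only at he
    have h3 := hc s hs t ht
    have h4 : (s : ℤ) % L = t % L :=
      Int.emod_eq_emod_iff_emod_sub_eq_zero.mpr (Int.emod_eq_zero_of_dvd h3)
    have h5 : s % L = t % L := by exact_mod_cast h4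
    have h6 := Nat.div_add_mod s L
    have h7 := Nat.div_add_mod t L
    rw [← h6, ← h7, he, h5]
  simpa using Finset.card_le_card_of_injOn _ h1 h2

/-- The set of roots. -/
def Rt (a v M : ℕ) : Finset ℕ :=
  (Finset.range (M + 1)).filter (fun s => (a : ℤ) ∣ (s : ℤ) * (s - 1) - v)

theorem mem_Rt {a v M s : ℕ} : s ∈ Rt a v M ↔ s ≤ M ∧ (a : ℤ) ∣ (s : ℤ) * (s - 1) - v := by
  unfold Rt; rw [Finset.mem_filter, Finset.mem_range, Nat.lt_succ_iff]

theorem card_Rt_le {a v M G : ℕ} (ha : 0 < a) (hG : 4 * v + 1 ≤ G ^ 2) :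
    (Rt a v M).card ≤ a.divisors.card * (M * G / a + 1) := by
  rcases (Rt a v M).eq_empty_or_nonempty with h0 | ⟨s0, hs0⟩
  · rw [h0]; simp
  have hs0' := (mem_Rt.mp hs0).2
  have hmap : ∀ s ∈ Rt a v M, Int.gcd (a : ℤ) ((s : ℤ) - s0) ∈ a.divisors := by
    intro s _
    rw [Nat.mem_divisors]
    refine ⟨?_, ha.ne'⟩
    have := Int.gcd_dvd_left (a : ℤ) ((s : ℤ) - s0)
    exact_mod_cast this
  have key : ∀ d ∈ a.divisors,
      ((Rt a v M).filter (fun s : ℕ => Int.gcd (a : ℤ) ((s : ℤ) - s0) = d)).card ≤ M * G / a + 1 := by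
    intro d hd
    have hda : d ∣ a := Nat.dvd_of_mem_divisors hd
    have hd0 : 0 < d := Nat.pos_of_mem_divisors hd
    set R := (Rt a v M).filter (fun s : ℕ => Int.gcd (a : ℤ) ((s : ℤ) - s0) = d) with hRdef
    rcases R.eq_empty_or_nonempty with h1 | ⟨s1, hs1⟩
    · rw [h1]; simp
    obtain ⟨e, he⟩ := hda
    have he0 : 0 < e := by
      rcases Nat.eq_zero_or_pos e with h | h
      · subst h; omega
      · exact h
    -- basic facts for elements of R
    have hfact : ∀ s ∈ R, (d : ℤ) ∣ (s : ℤ) - s0 ∧ (e : ℤ) ∣ (s : ℤ) + s0 - 1 := by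
      intro s hs
      obtain ⟨hsR, hsd⟩ := Finset.mem_filter.mp hs
      have h2 := (mem_Rt.mp hsR).2
      have h3 : (d : ℤ) ∣ (s : ℤ) - s0 := by
        rw [← hsd]; exact Int.gcd_dvd_right _ _
      refine ⟨h3, ?_⟩
      have h4 : (a : ℤ) ∣ ((s : ℤ) - s0) * (s + s0 - 1) := by
        have := dvd_sub h2 hs0'
        have e1 : ((s : ℤ) * (s - 1) - v) - ((s0 : ℤ) * (s0 - 1) - v) =
          ((s : ℤ) - s0) * (s + s0 - 1) := by ring
        rwa [e1] at this
      obtain ⟨w, hw⟩ := h3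
      have h5 : (d : ℤ) * e ∣ d * (w * (s + s0 - 1)) := by
        rw [hw, he] at h4
        push_cast at h4
        rwa [mul_assoc] at h4
      have h6 : (e : ℤ) ∣ w * (s + s0 - 1) :=
        (mul_dvd_mul_iff_left (by exact_mod_cast hd0.ne')).mp h5
      have h7 : IsCoprime (e : ℤ) w := by
        rw [Int.isCoprime_iff_gcd_eq_one]
        have h8 : Int.gcd ((d : ℤ) * e) (d * w) = d * Int.gcd (e : ℤ) w := by
          rw [Int.gcd_mul_left]; simp
        have h9 : Int.gcd ((d : ℤ) * e) (d * w) = d := by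
          have e2 : ((d : ℤ) * e) = (a : ℤ) := by rw [he]; push_cast; ring
          rw [e2, ← hw]; exact hsd
        rw [h9] at h8
        have : d * 1 = d * Int.gcd (e : ℤ) w := by rw [mul_one]; exact h8
        exact (Nat.eq_of_mul_eq_mul_left hd0 this).symm
      exact h7.dvd_of_dvd_mul_left h6
    set g := Nat.gcd d e with hg
    have hg0 : 0 < g := Nat.gcd_pos_of_pos_left _ hd0
    have hgL : g * Nat.lcm d e = a := by rw [hg, Nat.gcd_mul_lcm, he]
    have hgG : g ≤ G := by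
      obtain ⟨f1, f2⟩ := hfact s1 hs1
      have g1 : (g : ℤ) ∣ (s1 : ℤ) - s0 := (Int.natCast_dvd_natCast.mpr (Nat.gcd_dvd_left d e)).trans f1
      have g2 : (g : ℤ) ∣ (s1 : ℤ) + s0 - 1 :=
        (Int.natCast_dvd_natCast.mpr (Nat.gcd_dvd_right d e)).trans f2
      have g3 : (g : ℤ) ∣ 2 * s1 - 1 := by
        have := dvd_add g1 g2
        have e3 : ((s1 : ℤ) - s0) + (s1 + s0 - 1) = 2 * s1 - 1 := by ring
        rwa [e3] at this
      have g4 : (g : ℤ) ^ 2 ∣ (2 * s1 - 1) ^ 2 := pow_dvd_pow_of_dvd g3 2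
      have g5 : (g : ℤ) ^ 2 ∣ (a : ℤ) := by
        have : g ^ 2 ∣ a := by
          rw [he, sq]
          exact Nat.mul_dvd_mul (Nat.gcd_dvd_left d e) (Nat.gcd_dvd_right d e)
        exact_mod_cast this
      have g6 : (g : ℤ) ^ 2 ∣ (s1 : ℤ) * (s1 - 1) - v :=
        g5.trans (mem_Rt.mp (Finset.mem_filter.mp hs1).1).2
      have g7 : (g : ℤ) ^ 2 ∣ 4 * (v : ℤ) + 1 := by
        have := dvd_sub g4 (Dvd.dvd.mul_left g6 4)
        have e4 : ((2 : ℤ) * s1 - 1) ^ 2 - 4 * ((s1 : ℤ) * (s1 - 1) - v) = 4 * v + 1 := by ring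
        rwa [e4] at this
      have g8 : g ^ 2 ∣ 4 * v + 1 := by exact_mod_cast g7
      have g9 : g ^ 2 ≤ G ^ 2 := (Nat.le_of_dvd (by omega) g8).trans hG
      exact (Nat.pow_le_pow_iff_left (by norm_num)).mp g9
    have hL0 : 0 < Nat.lcm d e := Nat.lcm_pos hd0 he0
    have h10 : R.card ≤ M / Nat.lcm d e + 1 := by
      apply card_congr_le hL0 R
      · intro s hs
        exact (mem_Rt.mp (Finset.mem_filter.mp hs).1).1
      · intro s hs t ht
        obtain ⟨f1, f2⟩ := hfact s hs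
        obtain ⟨f3, f4⟩ := hfact t ht
        have k1 : (d : ℤ) ∣ (s : ℤ) - t := by
          have := dvd_sub f1 f3
          have e5 : ((s : ℤ) - s0) - (t - s0) = s - t := by ring
          rwa [e5] at this
        have k2 : (e : ℤ) ∣ (s : ℤ) - t := by
          have := dvd_sub f2 f4
          have e5 : ((s : ℤ) + s0 - 1) - (t + s0 - 1) = s - t := by ring
          rwa [e5] at this
        have k3 := Int.natCast_dvd.mp k1
        have k4 := Int.natCast_dvd.mp k2
        exact Int.natCast_dvd.mpr (Nat.lcm_dvd k3 k4)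
    refine h10.trans (Nat.add_le_add_right ?_ 1)
    -- M / L ≤ M * G / a
    rw [Nat.le_div_iff_mul_le ha]
    calc M / Nat.lcm d e * a = (M / Nat.lcm d e * Nat.lcm d e) * g := by rw [← hgL]; ring
      _ ≤ M * G := Nat.mul_le_mul (Nat.div_mul_le_self _ _) hgG
  calc (Rt a v M).card = ∑ d ∈ a.divisors,
        ((Rt a v M).filter (fun s : ℕ => Int.gcd (a : ℤ) ((s : ℤ) - s0) = d)).card :=
        Finset.card_eq_sum_card_fiberwise hmap
    _ ≤ ∑ _d ∈ a.divisors, (M * G / a + 1) := Finset.sum_le_sum key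
    _ = a.divisors.card * (M * G / a + 1) := by rw [Finset.sum_const, smul_eq_mul]

end Pool.Agent.X34.S2
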