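import Pool.Agent.X34.S2.Crude

set_option autoImplicit false

/-! Many solutions: products of `q` blocks of primes permuted among each other. -/

namespace Pool.Agent.X34.S2

open Finset

theorem v_even (Y : Multiset ℕ) : 2 ∣ v Y := by
  induction Y using Multiset.induction_on with
  | empty => simp [v]
  | cons a Y ih =>
    rw [v_cons]
    exact dvd_add (Nat.even_mul_pred_self a).two_dvd ih

/-- The largest entry that completes `Y` to a solution. -/
def zz (Y : Multiset ℕ) : ℕ := ((Y.prod - 1) * (Y.prod - 2) - v Y) / 2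

theorem zz_mem {Y : Multiset ℕ} (hB : Big Y) (h1 : Y.card + 1 + u Y ≤ Y.prod) (h2 : 2 ≤ Y.prod)
    (h3 : v Y + 4 ≤ (Y.prod - 1) * (Y.prod - 2)) : zz Y ::ₘ Y ∈ Sol (Y.prod - u Y) := by
  obtain ⟨b, hb⟩ : ∃ b, Y.prod = b + 2 := ⟨Y.prod - 2, by omega⟩
  have e1 : Y.prod - 1 = b + 1 := by omega
  have e2 : Y.prod - 2 = b := by omega
  have hev : 2 ∣ (b + 1) * b - v Y := by
    apply (Nat.dvd_sub _ (v_even Y))
    have := (Nat.even_mul_succ_self b).two_dvd
    rwa [mul_comm] at this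
  have hz : 2 * zz Y = (b + 1) * b - v Y := by
    unfold zz
    rw [e1, e2]
    exact Nat.mul_div_cancel' hev
  rw [e1, e2] at h3
  obtain ⟨t, ht⟩ : ∃ t, zz Y = t + 1 := ⟨zz Y - 1, by omega⟩
  refine ⟨hB.cons (by omega), ?_, ?_⟩
  · rw [Multiset.card_cons]; omega
  · rw [Multiset.prod_cons, v_cons, u_cons]
    have e3 : Y.prod - u Y + (zz Y - 1 + u Y) = b + 2 + t := by omega
    rw [e3, ht, hb]
    have e4 : t + 1 - 1 = t := by omega
    have e5 : b + 2 + t - 1 = b + 1 + t := by omega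
    rw [e4, e5]
    have h4 : 2 * (t + 1) + v Y = (b + 1) * b := by omega
    nlinarith

variable {q r x : ℕ}

/-- The factorization given by the permutations. -/
def Ys (b : Fin q → ℕ) (a : Fin r → Fin q → ℕ) (σ : Fin r → Equiv.Perm (Fin q)) : Multiset ℕ :=
  (Finset.univ : Finset (Fin q)).val.map (fun i => b i * ∏ e, a e (σ e i))

theorem Ys_prod (b : Fin q → ℕ) (a : Fin r → Fin q → ℕ) (σ : Fin r → Equiv.Perm (Fin q)) :
    (Ys b a σ).prod = (∏ i, b i) * ∏ e, ∏ i, a e i := by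
  unfold Ys
  have h1 : ((Finset.univ : Finset (Fin q)).val.map (fun i => b i * ∏ e, a e (σ e i))).prod =
      ∏ i, (b i * ∏ e, a e (σ e i)) := rfl
  rw [h1, Finset.prod_mul_distrib]
  congr 1
  rw [Finset.prod_comm]
  apply Finset.prod_congr rfl
  intro e _
  exact Equiv.prod_comp (σ e) (a e)

theorem Ys_card (b : Fin q → ℕ) (a : Fin r → Fin q → ℕ) (σ : Fin r → Equiv.Perm (Fin q)) :
    (Ys b a σ).card = q := by
  unfold Ys; simp

theorem mem_Ys {b : Fin q → ℕ} {a : Fin r → Fin q → ℕ} {σ : Fin r → Equiv.Perm (Fin q)} {y : ℕ} :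
    y ∈ Ys b a σ ↔ ∃ i, b i * ∏ e, a e (σ e i) = y := by
  unfold Ys; simp

theorem Ys_big {b : Fin q → ℕ} {a : Fin r → Fin q → ℕ} (hb : ∀ i, (b i).Prime)
    (ha : ∀ e i, (a e i).Prime) (σ : Fin r → Equiv.Perm (Fin q)) : Big (Ys b a σ) := by
  intro y hy
  obtain ⟨i, rfl⟩ := mem_Ys.mp hy
  have h1 := (hb i).two_le
  have h2 : 0 < ∏ e, a e (σ e i) := Finset.prod_pos (fun e _ => (ha e _).pos)
  calc 2 ≤ b i := h1
    _ ≤ b i * ∏ e, a e (σ e i) := Nat.le_mul_of_pos_right _ h2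

theorem Ys_le {b : Fin q → ℕ} {a : Fin r → Fin q → ℕ} (hbx : ∀ i, b i ≤ x)
    (hax : ∀ e i, a e i ≤ x) (σ : Fin r → Equiv.Perm (Fin q)) :
    ∀ y ∈ Ys b a σ, y ≤ x ^ (r + 1) := by
  intro y hy
  obtain ⟨i, rfl⟩ := mem_Ys.mp hy
  rw [pow_succ, mul_comm (x ^ r) x]
  apply Nat.mul_le_mul (hbx i)
  calc ∏ e, a e (σ e i) ≤ ∏ _e : Fin r, x := Finset.prod_le_prod' (fun e _ => hax e _)
    _ = x ^ r := by simp

theorem Ys_inj {b : Fin q → ℕ} {a : Fin r → Fin q → ℕ} (hb : ∀ i, (b i).Prime)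
    (ha : ∀ e i, (a e i).Prime) (hbi : Function.Injective b)
    (hai : ∀ e i e' i', a e i = a e' i' → e = e' ∧ i = i') (hab : ∀ i e i', b i ≠ a e i')
    {σ τ : Fin r → Equiv.Perm (Fin q)} (h : Ys b a σ = Ys b a τ) : σ = τ := by
  funext e0
  ext1 i
  have h1 : b i * ∏ e, a e (σ e i) ∈ Ys b a τ := by
    rw [← h]; exact mem_Ys.mpr ⟨i, rfl⟩
  obtain ⟨i', hi'⟩ := mem_Ys.mp h1
  have h2 : b i ∣ b i' * ∏ e, a e (τ e i') := by rw [hi']; exact Dvd.intro _ rfl
  have h3 : i = i' := by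
    rcases (hb i).dvd_mul.mp h2 with h4 | h4
    · exact hbi ((Nat.prime_dvd_prime_iff_eq (hb i) (hb i')).mp h4)
    · obtain ⟨e, -, h5⟩ := ((hb i).prime.dvd_finsetProd_iff _).mp h4
      exact absurd ((Nat.prime_dvd_prime_iff_eq (hb i) (ha e _)).mp h5) (hab _ _ _)
  subst h3
  have h4 : ∏ e, a e (τ e i) = ∏ e, a e (σ e i) := Nat.eq_of_mul_eq_mul_left (hb i).pos hi'
  have h5 : a e0 (σ e0 i) ∣ ∏ e, a e (τ e i) := by
    rw [h4]; exact Finset.dvd_prod_of_mem (fun e => a e (σ e i)) (Finset.mem_univ e0)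
  obtain ⟨e, -, h6⟩ := ((ha e0 (σ e0 i)).prime.dvd_finsetProd_iff _).mp h5
  obtain ⟨h7, h8⟩ := hai _ _ _ _ ((Nat.prime_dvd_prime_iff_eq (ha _ _) (ha _ _)).mp h6)
  subst h7
  exact h8

theorem family {b : Fin q → ℕ} {a : Fin r → Fin q → ℕ} (hb : ∀ i, (b i).Prime)
    (ha : ∀ e i, (a e i).Prime) (hbi : Function.Injective b)
    (hai : ∀ e i e' i', a e i = a e' i' → e = e' ∧ i = i') (hab : ∀ i e i', b i ≠ a e i')
    (hbx : ∀ i, b i ≤ x) (hax : ∀ e i, a e i ≤ x) (hq : 1 ≤ q) {T : ℕ}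
    (hT : (q * x ^ (r + 1) + 1) * T ≤ (q.factorial) ^ r)
    (hbig : 4 * (q * (x ^ (r + 1)) ^ 2) + 10 ≤ 2 ^ q) :
    ∃ n, 3 ≤ n ∧ n ≤ x ^ ((r + 1) * q) ∧ T ≤ (Sol n).ncard := by
  classical
  set P := (∏ i, b i) * ∏ e, ∏ i, a e i with hP
  have hx1 : 1 ≤ x := by
    have := (hb ⟨0, hq⟩).pos
    have := hbx ⟨0, hq⟩
    omega
  set R := x ^ (r + 1) with hR
  have hR1 : 1 ≤ R := Nat.one_le_pow _ _ hx1
  have hPup : P ≤ x ^ ((r + 1) * q) := by
    have h1 : ∏ i, b i ≤ x ^ q := by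
      calc ∏ i, b i ≤ ∏ _i : Fin q, x := Finset.prod_le_prod' (fun i _ => hbx i)
        _ = x ^ q := by simp
    have h2 : ∏ e, ∏ i, a e i ≤ (x ^ q) ^ r := by
      calc ∏ e, ∏ i, a e i ≤ ∏ _e : Fin r, x ^ q := by
            apply Finset.prod_le_prod'
            intro e _
            calc ∏ i, a e i ≤ ∏ _i : Fin q, x := Finset.prod_le_prod' (fun i _ => hax e i)
              _ = x ^ q := by simp
        _ = (x ^ q) ^ r := by simp
    calc P ≤ x ^ q * (x ^ q) ^ r := Nat.mul_le_mul h1 h2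
      _ = x ^ ((r + 1) * q) := by rw [← pow_mul, ← pow_add]; congr 1; ring
  have hPlow : 2 ^ q ≤ P := by
    have h1 : 2 ^ q ≤ ∏ i, b i := by
      calc 2 ^ q = ∏ _i : Fin q, 2 := by simp
        _ ≤ ∏ i, b i := Finset.prod_le_prod' (fun i _ => (hb i).two_le)
    have h2 : 0 < ∏ e, ∏ i, a e i :=
      Finset.prod_pos (fun e _ => Finset.prod_pos (fun i _ => (ha e i).pos))
    calc 2 ^ q ≤ ∏ i, b i := h1
      _ ≤ P := Nat.le_mul_of_pos_right _ h2
  have hqR : q * R ≤ q * R ^ 2 := Nat.mul_le_mul_left _ (by nlinarith)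
  have hRq : R ≤ q * R ^ 2 := by nlinarith
  have hqq : q ≤ q * R ^ 2 := Nat.le_mul_of_pos_right _ (by positivity)
  have hprod : ∀ σ, (Ys b a σ).prod = P := fun σ => Ys_prod b a σ
  have hu : ∀ σ, u (Ys b a σ) ≤ q * R := by
    intro σ
    have := u_le (Ys_le hbx hax σ)
    rwa [Ys_card] at this
  have hv : ∀ σ, v (Ys b a σ) ≤ q * R ^ 2 := by
    intro σ
    have := v_le' (Ys_le hbx hax σ)
    rwa [Ys_card] at this
  have hPP : 8 * (P - 1) ≤ (P - 1) * (P - 2) := by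
    rw [mul_comm]
    exact Nat.mul_le_mul_left _ (by omega)
  have hcond : ∀ σ, v (Ys b a σ) + 2 * R + 4 ≤ (P - 1) * (P - 2) := by
    intro σ
    have := hv σ
    omega
  have hzz : ∀ σ, R < zz (Ys b a σ) := by
    intro σ
    unfold zz
    rw [hprod]
    have := hcond σ
    omega
  have hmem : ∀ σ, zz (Ys b a σ) ::ₘ Ys b a σ ∈ Sol (P - u (Ys b a σ)) := by
    intro σ
    have h1 := zz_mem (Ys_big hb ha σ) (by
      rw [Ys_card, hprod]
      have := hu σ
      omega) (by rw [hprod]; omega) (by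
      rw [hprod]
      have := hcond σ
      omega)
    rwa [hprod] at h1
  obtain ⟨u0, hu0, hfib⟩ := Finset.exists_le_card_fiber_of_mul_le_card_of_maps_to
    (s := (Finset.univ : Finset (Fin r → Equiv.Perm (Fin q)))) (t := Finset.range (q * R + 1))
    (f := fun σ => u (Ys b a σ)) (n := T) (fun σ _ => by
      rw [Finset.mem_range]
      have := hu σ
      omega) ⟨0, by simp⟩ (by
      rw [Finset.card_range, Finset.card_univ, Fintype.card_fun, Fintype.card_perm,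
        Fintype.card_fin, Fintype.card_fin]
      exact hT)
  rw [Finset.mem_range] at hu0
  have hn3 : 3 ≤ P - u0 := by omega
  refine ⟨P - u0, hn3, (Nat.sub_le _ _).trans hPup, ?_⟩
  refine hfib.trans ?_
  set S := (Finset.univ : Finset (Fin r → Equiv.Perm (Fin q))).filter
    (fun σ => u (Ys b a σ) = u0) with hS
  have hinj : Set.InjOn (fun σ => zz (Ys b a σ) ::ₘ Ys b a σ) (S : Set (Fin r → Equiv.Perm (Fin q))) := by
    intro σ _ τ _ hst
    simp only at hst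
    have h1 : zz (Ys b a σ) ∈ zz (Ys b a τ) ::ₘ Ys b a τ := by
      rw [← hst]; exact Multiset.mem_cons_self _ _
    have h2 : zz (Ys b a σ) = zz (Ys b a τ) := by
      rcases Multiset.mem_cons.mp h1 with h3 | h3
      · exact h3
      · have h4 := Ys_le hbx hax τ _ h3
        have h5 := hzz σ
        omega
    rw [h2, Multiset.cons_inj_right] at hst
    exact Ys_inj hb ha hbi hai hab hst
  have hfin := Sol_finite hn3
  rw [Set.ncard_eq_toFinset_card _ hfin]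
  apply Finset.card_le_card_of_injOn (fun σ => zz (Ys b a σ) ::ₘ Ys b a σ)
  · intro σ hσ
    have h1 : u (Ys b a σ) = u0 := (Finset.mem_filter.mp hσ).2
    have h2 := hmem σ
    rw [h1] at h2
    simpa using h2
  · exact hinj

end Pool.Agent.X34.S2
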