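import Pool.Agent.X34.S2.Large
import Pool.Agent.X34.S2.Conic

set_option autoImplicit false

/-! Solutions with at most two distinct entries different from one. -/

namespace Pool.Agent.X34.S2

open Finset

theorem exists_D {n z : ℕ} {Y : Multiset ℕ} (hn : 3 ≤ n) (h : z ::ₘ Y ∈ Sol n) :
    ∃ D ∈ (qq Y).divisors, gg Y D = (n, z ::ₘ Y) := by
  obtain ⟨h1, h2, h3, -⟩ := main_facts hn h
  obtain ⟨hz2, hY⟩ := h.1.of_cons
  obtain ⟨b, hb⟩ : ∃ b, n = b + 2 := ⟨n - 2, by omega⟩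
  have e3 : n - 1 + u Y = b + 1 + u Y := by omega
  have e4 : n - 2 + u Y = b + u Y := by omega
  rw [e3, e4] at h1
  obtain ⟨D, hD⟩ : ∃ D, Y.prod = b + 1 + u Y + D := ⟨Y.prod - (b + 1 + u Y), by omega⟩
  have hD1 : 1 ≤ D := by omega
  have k1 : 2 * D * z + v Y = (b + 1 + u Y) * (b + u Y) := by
    rw [hD] at h1
    nlinarith
  have k2 : qq Y = D * (2 * z + (2 * (b + u Y) + 1 + D)) := by
    unfold qq
    rw [hD]
    have e5 : b + 1 + u Y + D - 1 = b + u Y + D := by omega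
    rw [e5]
    have k3 : (b + 1 + u Y + D) * (b + u Y + D) =
        D * (2 * z + (2 * (b + u Y) + 1 + D)) + v Y := by nlinarith
    omega
  refine ⟨D, ?_, ?_⟩
  · rw [Nat.mem_divisors]
    refine ⟨⟨_, k2⟩, ?_⟩
    rw [k2]
    apply Nat.mul_ne_zero (by omega) (by omega)
  · unfold gg
    rw [hD]
    have e6 : b + 1 + u Y + D - D = b + 1 + u Y := by omega
    have e7 : b + 1 + u Y - 1 = b + u Y := by omega
    have e8 : (b + 1 + u Y) * (b + u Y) - v Y = 2 * D * z := by omega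
    rw [e6, e7, e8, Nat.mul_div_cancel_left z (by omega)]
    ext1
    · show b + 1 + u Y + 1 - u Y = n
      omega
    · rfl

/-- The `n` given by a family of smaller multisets. -/
noncomputable def NA (A : Finset (Multiset ℕ)) : Finset ℕ :=
  A.biUnion (fun Y => (qq Y).divisors.image (fun D => (gg Y D).1))

theorem mem_NA {n z : ℕ} {Y : Multiset ℕ} {A : Finset (Multiset ℕ)} (hn : 3 ≤ n)
    (h : z ::ₘ Y ∈ Sol n) (hA : Y ∈ A) : n ∈ NA A := by
  obtain ⟨D, hD, he⟩ := exists_D hn h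
  unfold NA
  rw [Finset.mem_biUnion]
  refine ⟨Y, hA, ?_⟩
  rw [Finset.mem_image]
  exact ⟨D, hD, by rw [he]⟩

theorem card_NA_le {K k : ℕ} {A : Finset (Multiset ℕ)}
    (hdiv : ∀ n : ℕ, n ≤ K ^ k → n.divisors.card ≤ K)
    (hA : ∀ Y ∈ A, Y.prod * Y.prod ≤ K ^ k) : (NA A).card ≤ A.card * K := by
  refine Finset.card_biUnion_le_card_mul _ _ K ?_
  intro Y hY
  refine Finset.card_image_le.trans (hdiv _ ?_)
  unfold qq
  have h2 : Y.prod * (Y.prod - 1) ≤ Y.prod * Y.prod := Nat.mul_le_mul_left _ (Nat.sub_le _ _)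
  have := hA Y hY
  omega

/-- Uniqueness of `n`. -/
theorem Sol_unique {n n' : ℕ} {Y : Multiset ℕ} (hn : 1 ≤ n) (hn' : 1 ≤ n') (h : Y ∈ Sol n)
    (h' : Y ∈ Sol n') : n = n' := by
  have h1 := h.2.2
  have h2 := h'.2.2
  obtain ⟨a, ha⟩ : ∃ a, n + u Y = a + 1 := ⟨n + u Y - 1, by omega⟩
  obtain ⟨b, hb⟩ : ∃ b, n' + u Y = b + 1 := ⟨n' + u Y - 1, by omega⟩
  rw [ha] at h1
  rw [hb] at h2
  have e1 : a + 1 - 1 = a := by omega
  have e2 : b + 1 - 1 = b := by omega
  rw [e1] at h1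
  rw [e2] at h2
  have h3 : (a + 1) * a = (b + 1) * b := by rw [← h1, ← h2]
  have h4 : a = b := by nlinarith
  omega

theorem two_values {Y : Multiset ℕ} (hB : Big Y) (h0 : Y ≠ 0) (h : Y.toFinset.card ≤ 2) :
    ∃ x z a b, 1 ≤ x ∧ x < z ∧ 1 ≤ b ∧ (a = 0 ∨ 2 ≤ x) ∧
      Y = Multiset.replicate a x + Multiset.replicate b z := by
  obtain ⟨z, Y', hY, hmax⟩ := exists_max h0
  have hzY : z ∈ Y := by rw [hY]; exact Multiset.mem_cons_self _ _
  have hle : ∀ y ∈ Y, y ≤ z := by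
    intro y hy
    rw [hY] at hy
    rcases Multiset.mem_cons.mp hy with h1 | h1
    · omega
    · exact hmax y h1
  have hsplit : Y = Y.filter (fun y => ¬ y = z) + Y.filter (fun y => y = z) := by
    rw [add_comm]; exact (Multiset.filter_add_not (fun y => y = z) Y).symm
  have hz : Y.filter (fun y => y = z) = Multiset.replicate (Y.filter (fun y => y = z)).card z := by
    rw [Multiset.eq_replicate]
    exact ⟨rfl, fun b hb => (Multiset.mem_filter.mp hb).2⟩
  have hb1 : 1 ≤ (Y.filter (fun y => y = z)).card := by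
    rw [Nat.one_le_iff_ne_zero]
    intro h1
    rw [Multiset.card_eq_zero] at h1
    have : z ∈ Y.filter (fun y => y = z) := Multiset.mem_filter.mpr ⟨hzY, rfl⟩
    rw [h1] at this
    simp at this
  have hz2 := hB z hzY
  by_cases he : Y.filter (fun y => ¬ y = z) = 0
  · refine ⟨1, z, 0, (Y.filter (fun y => y = z)).card, le_rfl, by omega, hb1, Or.inl rfl, ?_⟩
    rw [← hz, Multiset.replicate_zero, ← he]
    exact hsplit
  · obtain ⟨x, hx⟩ := Multiset.exists_mem_of_ne_zero he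
    obtain ⟨hxY, hxz⟩ := Multiset.mem_filter.mp hx
    have hx2 := hB x hxY
    have hlt : x < z := lt_of_le_of_ne (hle x hxY) hxz
    refine ⟨x, z, (Y.filter (fun y => ¬ y = z)).card, (Y.filter (fun y => y = z)).card, by omega,
      hlt, hb1, Or.inr hx2, ?_⟩
    have hxr : Y.filter (fun y => ¬ y = z) =
        Multiset.replicate (Y.filter (fun y => ¬ y = z)).card x := by
      rw [Multiset.eq_replicate]
      refine ⟨rfl, fun w hw => ?_⟩
      obtain ⟨hwY, hwz⟩ := Multiset.mem_filter.mp hw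
      by_contra hne
      have h3 : ({w, x, z} : Finset ℕ) ⊆ Y.toFinset := by
        intro t ht
        simp only [Finset.mem_insert, Finset.mem_singleton] at ht
        rw [Multiset.mem_toFinset]
        rcases ht with rfl | rfl | rfl
        · exact hwY
        · exact hxY
        · exact hzY
      have h4 := Finset.card_le_card h3
      have h5 : ({w, x, z} : Finset ℕ).card = 3 := Finset.card_eq_three.mpr
        ⟨w, x, z, hne, hwz, hxz, rfl⟩
      omega
    rw [← hz, ← hxr]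
    exact hsplit

/-- The basic inequality with the largest entry. -/
theorem a0_bound {K n z : ℕ} {Y : Multiset ℕ} (hK : 6 ≤ K) (hn : 3 ≤ n) (hn2 : n < 2 * K ^ 80)
    (h : z ::ₘ Y ∈ Sol n) (hz : ∀ y ∈ Y, y ≤ z) (hc : Y.card ≤ K) :
    ∃ a : ℕ, a ≤ 6 * K ^ 81 ∧ 2 * Y.prod * z ≤ a * a + 2 * a * z := by
  obtain ⟨h1, h2, h3, h4⟩ := main_facts hn h
  have hU : u Y ≤ 2 * n * K := by
    rcases h4 with h5 | h5
    · nlinarith
    · have h6 := u_le hz
      calc u Y ≤ Y.card * z := h6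
        _ ≤ K * (2 * n) := Nat.mul_le_mul hc h5
        _ = 2 * n * K := by ring
  obtain ⟨b, hb⟩ : ∃ b, n = b + 2 := ⟨n - 2, by omega⟩
  have e3 : n - 1 + u Y = b + 1 + u Y := by omega
  have e4 : n - 2 + u Y = b + u Y := by omega
  rw [e3, e4] at h1
  refine ⟨b + 1 + u Y, ?_, ?_⟩
  · have q1 : n ≤ n * K := Nat.le_mul_of_pos_right _ (by omega)
    have q2 : n * K ≤ (2 * K ^ 80) * K := Nat.mul_le_mul_right _ hn2.le
    have q3 : (2 * K ^ 80) * K = 2 * K ^ 81 := by ring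
    have q4 : 2 * n * K = 2 * (n * K) := by ring
    omega
  · have : (b + u Y) ≤ b + 1 + u Y := by omega
    have := Nat.mul_le_mul_left (b + 1 + u Y) this
    omega

theorem prod_bound {K n z : ℕ} {Y : Multiset ℕ} (hK : 108 ≤ K) (hn : 3 ≤ n)
    (hn2 : n < 2 * K ^ 80) (h : z ::ₘ Y ∈ Sol n) (hz : ∀ y ∈ Y, y ≤ z) (hc : Y.card ≤ K) :
    Y.prod ≤ K ^ 163 ∧ (z ≤ Y.prod → Y.prod * z ≤ K ^ 163) := by
  obtain ⟨a, ha, hE⟩ := a0_bound (by omega) hn hn2 h hz hc
  have hz2 := h.1.of_cons.1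
  have haa : a * a ≤ 36 * K ^ 162 := by
    calc a * a ≤ (6 * K ^ 81) * (6 * K ^ 81) := Nat.mul_le_mul ha ha
      _ = 36 * K ^ 162 := by ring
  have hk : 108 * K ^ 162 ≤ K ^ 163 := by
    calc 108 * K ^ 162 ≤ K * K ^ 162 := Nat.mul_le_mul_right _ hK
      _ = K ^ 163 := by ring
  constructor
  · have h6 : Y.prod ≤ a * a + a := by
      by_contra hlt
      push Not at hlt
      have h7 : 2 * (a * a + a + 1) * z ≤ 2 * Y.prod * z :=
        Nat.mul_le_mul_right _ (Nat.mul_le_mul_left _ hlt)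
      nlinarith [Nat.mul_le_mul_left (a * a) hz2]
    have h7 : a ≤ a * a := Nat.le_mul_self a
    omega
  · intro hzP
    have h6 : z ≤ 2 * a := by
      by_contra hlt
      push Not at hlt
      have h7 : 2 * z * z ≤ 2 * Y.prod * z :=
        Nat.mul_le_mul_right _ (Nat.mul_le_mul_left _ hzP)
      nlinarith
    have h7 : 2 * (Y.prod * z) ≤ a * a + 2 * a * (2 * a) := by
      calc 2 * (Y.prod * z) = 2 * Y.prod * z := by ring
        _ ≤ a * a + 2 * a * z := hE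
        _ ≤ _ := Nat.add_le_add_left (Nat.mul_le_mul_left _ h6) _
    nlinarith

theorem x_bound {K n z x a : ℕ} (hK : 108 ≤ K) (hn : 3 ≤ n) (hn2 : n < 2 * K ^ 80)
    (h : z ::ₘ Multiset.replicate a x ∈ Sol n) (hxz : x ≤ z) (hx1 : 1 ≤ x) (hc : a ≤ K)
    (ha2 : 2 ≤ a) : x < K ^ 56 := by
  obtain ⟨a0, ha, hE⟩ := a0_bound (by omega) hn hn2 h
    (fun y hy => by rw [Multiset.eq_of_mem_replicate hy]; exact hxz) (by simpa using hc)
  rw [Multiset.prod_replicate] at hE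
  by_contra hge
  push Not at hge
  have haa : a0 * a0 ≤ 36 * K ^ 162 := by
    calc a0 * a0 ≤ (6 * K ^ 81) * (6 * K ^ 81) := Nat.mul_le_mul ha ha
      _ = 36 * K ^ 162 := by ring
  have h1 : K ^ 56 * K ^ 56 ≤ x ^ a := by
    calc K ^ 56 * K ^ 56 ≤ x * x := Nat.mul_le_mul hge hge
      _ = x ^ 2 := by ring
      _ ≤ x ^ a := Nat.pow_le_pow_right hx1 ha2
  have h2 : K ^ 112 * z ≤ x ^ a * z := by
    apply Nat.mul_le_mul_right
    calc K ^ 112 = K ^ 56 * K ^ 56 := by ring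
      _ ≤ x ^ a := h1
  have h3 : K ^ 112 * K ^ 56 ≤ K ^ 112 * z := Nat.mul_le_mul_left _ (hge.trans hxz)
  have h4 : K ^ 112 * K ^ 56 = K ^ 6 * K ^ 162 := by ring
  have h5 : 108 * K ^ 162 ≤ K ^ 6 * K ^ 162 := by
    apply Nat.mul_le_mul_right
    calc 108 ≤ K := hK
      _ = K ^ 1 := (pow_one K).symm
      _ ≤ K ^ 6 := Nat.pow_le_pow_right (by omega) (by norm_num)
  have h6 : 2 * a0 * z ≤ 12 * K ^ 81 * z := Nat.mul_le_mul_right _ (by omega)
  have h7 : 12 * K ^ 81 * z ≤ K ^ 112 * z := by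
    apply Nat.mul_le_mul_right
    calc 12 * K ^ 81 ≤ K * K ^ 81 := Nat.mul_le_mul_right _ (by omega)
      _ = K ^ 82 := by ring
      _ ≤ K ^ 112 := Nat.pow_le_pow_right (by omega) (by norm_num)
  have h8 : 2 * x ^ a * z = x ^ a * z + x ^ a * z := by ring
  have h9 : 0 < K ^ 162 := Nat.pow_pos (by omega)
  omega

end Pool.Agent.X34.S2
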