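import Pool.Agent.X34.S2.Few

set_option autoImplicit false

/-! The families of solutions with two distinct entries different from one. -/

namespace Pool.Agent.X34.S2

open Finset

/-- `x` repeated `a` times and `z` repeated `b` times -/
def rp (x z a b : ℕ) : Multiset ℕ := Multiset.replicate a x + Multiset.replicate b z

theorem rp_prod (x z a b : ℕ) : (rp x z a b).prod = x ^ a * z ^ b := by simp [rp]

theorem rp_v (x z a b : ℕ) : v (rp x z a b) = a * (x * (x - 1)) + b * (z * (z - 1)) := by
  simp [rp, v]

noncomputable def A1 (K : ℕ) : Finset (Multiset ℕ) :=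
  ((Finset.range (K ^ 56) ×ˢ Finset.range (K + 1)).image
    (fun p => Multiset.replicate p.2 p.1)).filter (fun Y => Y.prod ≤ K ^ 163)

noncomputable def A3 (K : ℕ) : Finset (Multiset ℕ) :=
  ((Finset.range (K ^ 72 + 1) ×ˢ Finset.range (K + 1)).image
    (fun p => Multiset.replicate p.2 p.1)).filter (fun Y => Y.prod ≤ K ^ 163)

noncomputable def B2 (K : ℕ) : Finset (Multiset ℕ) :=
  (Finset.range (K ^ 55) ×ˢ Finset.range (K + 1)).image (fun p => rp 1 p.1 0 p.2)

noncomputable def B5 (K : ℕ) : Finset (Multiset ℕ) :=
  (Finset.range (K ^ 72 + 1)).biUnion (fun t => t.divisors.biUnion (fun x =>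
    (Finset.range (K + 1) ×ˢ Finset.range (K + 1)).image (fun p => rp x (t / x) p.1 p.2)))

noncomputable def Bs (K : ℕ) : Finset (Multiset ℕ) :=
  ((Finset.range (K ^ 20) ×ˢ Finset.range (K ^ 20)) ×ˢ
    (Finset.range (K + 1) ×ˢ Finset.range (K + 1))).image (fun p => rp p.1.1 p.1.2 p.2.1 p.2.2)

noncomputable def B6 (K : ℕ) : Finset (Multiset ℕ) :=
  (Finset.Icc 2 (K ^ 20)).biUnion (fun x => (Finset.Icc 1 K).biUnion (fun a =>
    (Con (2 * x ^ a + 2) (a * (x * (x - 1))) x (K ^ 82)).image (fun z => rp x z a 2)))

noncomputable def B7 (K : ℕ) : Finset (Multiset ℕ) :=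
  (Finset.Icc 2 (K ^ 41)).biUnion (fun x =>
    (Con (2 * x ^ 2 + 2) (2 * (x * (x - 1))) x (K ^ 82 / x)).image (fun z => rp x z 2 2))

noncomputable def BB (K : ℕ) : Finset (Multiset ℕ) := B2 K ∪ B5 K ∪ Bs K ∪ B6 K ∪ B7 K

theorem con_eq {n x z a : ℕ} (hn : 1 ≤ n) (h : rp x z a 2 ∈ Sol n) (hz : 1 ≤ z) :
    ∃ s : ℕ, 1 ≤ s ∧ s * (s - 1) + 2 * z = (2 * x ^ a + 2) * z ^ 2 + a * (x * (x - 1)) := by
  refine ⟨n + u (rp x z a 2), by omega, ?_⟩
  have h1 := h.2.2
  rw [rp_prod, rp_v] at h1
  rw [← h1]
  obtain ⟨w, rfl⟩ := Nat.exists_eq_add_of_le hz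
  have e : 1 + w - 1 = w := by omega
  rw [e]
  ring

theorem main_cases {K n : ℕ} {Y : Multiset ℕ} (hK : 108 ≤ K) (hn : 3 ≤ n)
    (hn2 : n < 2 * K ^ 80) (h : Y ∈ Sol n) (hc : Y.card < K) (hd : Y.toFinset.card ≤ 2) :
    n ∈ NA (A1 K ∪ A3 K) ∨ Y ∈ BB K := by
  have hK0 : 0 < K := by omega
  obtain ⟨x, z, a, b, hx1, hxz, hb1, hax, hY⟩ := two_values h.1 (Sol_ne_zero hn h) hd
  have hYrp : Y = rp x z a b := hY
  have hcab : a + b < K := by rw [hY] at hc; simpa using hc
  set Y' := Multiset.replicate a x + Multiset.replicate (b - 1) z with hY'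
  have hYz : Y = z ::ₘ Y' := by
    rw [hY, hY']
    obtain ⟨b', rfl⟩ : ∃ b', b = b' + 1 := ⟨b - 1, by omega⟩
    rw [Multiset.replicate_succ, Nat.add_sub_cancel, Multiset.add_cons]
  have hz : ∀ y ∈ Y', y ≤ z := by
    intro y hy
    rcases Multiset.mem_add.mp hy with h1 | h1
    · rw [Multiset.eq_of_mem_replicate h1]; exact hxz.le
    · rw [Multiset.eq_of_mem_replicate h1]
  have hcY' : Y'.card = a + (b - 1) := by simp [hY']
  have hS : z ::ₘ Y' ∈ Sol n := by rw [← hYz]; exact h
  obtain ⟨-, -, hc2, -⟩ := main_facts hn hS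
  obtain ⟨p1, p2⟩ := prod_bound hK hn hn2 hS hz (by omega)
  have hz2 : 2 ≤ z := by omega
  have hpow : ∀ {i j : ℕ}, i ≤ j → K ^ i ≤ K ^ j := fun hij => Nat.pow_le_pow_right hK0 hij
  have hpowlt : ∀ {i j : ℕ}, i < j → K ^ i < K ^ j := fun hij => Nat.pow_lt_pow_right (by omega) hij
  by_cases hb : b = 1
  · -- largest entry simple
    left
    subst hb
    have hYa : Y' = Multiset.replicate a x := by simp [hY']
    have ha2 : 2 ≤ a := by omega
    rw [hYa] at hS p1
    have hx56 := x_bound hK hn hn2 hS hxz.le hx1 (by omega) ha2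
    apply mem_NA hn hS
    rw [Finset.mem_union]
    left
    unfold A1
    rw [Finset.mem_filter]
    refine ⟨?_, p1⟩
    rw [Finset.mem_image]
    exact ⟨(x, a), Finset.mem_product.mpr ⟨Finset.mem_range.mpr hx56,
      Finset.mem_range.mpr (by simp only; omega)⟩, rfl⟩
  · have hb2 : 2 ≤ b := by omega
    have hzY' : z ∈ Y' := by
      rw [hY', Multiset.mem_add]
      right
      rw [Multiset.mem_replicate]
      exact ⟨by omega, rfl⟩
    have hzP : z ≤ Y'.prod :=
      Nat.le_of_dvd (Big.prod_pos (hS.1.of_cons.2)) (Multiset.dvd_prod hzY')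
    have hPi : x ^ a * z ^ b ≤ K ^ 163 := by
      have h1 := p2 hzP
      have h2 : Y.prod = Y'.prod * z := by rw [hYz, Multiset.prod_cons, mul_comm]
      rw [← h2, hYrp, rp_prod] at h1
      exact h1
    have hxa : 1 ≤ x ^ a := Nat.one_le_pow _ _ hx1
    have hzb : z ^ b ≤ K ^ 163 := (Nat.le_mul_of_pos_left _ hxa).trans hPi
    have hz3 : 3 ≤ b → z < K ^ 55 := by
      intro hb3
      by_contra hge
      push Not at hge
      have h1 : (K ^ 55) ^ 3 ≤ z ^ b := (Nat.pow_le_pow_left hge 3).trans
        (Nat.pow_le_pow_right (by omega) hb3)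
      have h2 : (K ^ 55) ^ 3 = K ^ 165 := by rw [← pow_mul]
      have h3 : K ^ 163 < K ^ 165 := hpowlt (by norm_num)
      omega
    rcases Nat.lt_or_ge a 1 with ha | ha
    · -- a = 0
      right
      have ha0 : a = 0 := by omega
      have hb3 : 3 ≤ b := by omega
      unfold BB
      simp only [Finset.mem_union]
      left; left; left; left
      unfold B2
      rw [Finset.mem_image]
      refine ⟨(z, b), Finset.mem_product.mpr ⟨Finset.mem_range.mpr (hz3 hb3),
        Finset.mem_range.mpr (by simp only; omega)⟩, ?_⟩
      rw [hYrp, ha0]; simp [rp]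
    · have hx2 : 2 ≤ x := by rcases hax with h1 | h1 <;> omega
      -- the conic cases with small x
      have hcon6 : b = 2 → x < K ^ 20 → Y ∈ BB K := by
        intro hb2' hx20
        subst hb2'
        unfold BB
        simp only [Finset.mem_union]
        left; right
        unfold B6
        rw [Finset.mem_biUnion]
        refine ⟨x, Finset.mem_Icc.mpr ⟨hx2, hx20.le⟩, ?_⟩
        rw [Finset.mem_biUnion]
        refine ⟨a, Finset.mem_Icc.mpr ⟨ha, by omega⟩, ?_⟩
        rw [Finset.mem_image]
        refine ⟨z, ?_, hYrp.symm⟩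
        rw [mem_Con]
        refine ⟨?_, hxz.le, con_eq (n := n) (by omega) (by rw [← hYrp]; exact h) (by omega)⟩
        by_contra hgt
        push Not at hgt
        have h1 : (K ^ 82) ^ 2 ≤ z ^ 2 := Nat.pow_le_pow_left hgt.le 2
        have h2 : (K ^ 82) ^ 2 = K ^ 164 := by rw [← pow_mul]
        have h3 : K ^ 163 < K ^ 164 := hpowlt (by norm_num)
        omega
      have hBs : x < K ^ 20 → z < K ^ 20 → Y ∈ BB K := by
        intro h1 h2
        unfold BB
        simp only [Finset.mem_union]
        left; left; right
        unfold Bs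
        rw [Finset.mem_image]
        refine ⟨((x, z), (a, b)), ?_, hYrp.symm⟩
        simp only [Finset.mem_product, Finset.mem_range]
        omega
      have hB5 : x * z ≤ K ^ 72 → Y ∈ BB K := by
        intro h1
        unfold BB
        simp only [Finset.mem_union]
        left; left; left; right
        unfold B5
        rw [Finset.mem_biUnion]
        refine ⟨x * z, Finset.mem_range.mpr (by omega), ?_⟩
        rw [Finset.mem_biUnion]
        refine ⟨x, ?_, ?_⟩
        · rw [Nat.mem_divisors]
          exact ⟨Dvd.intro _ rfl, Nat.mul_ne_zero (by omega) (by omega)⟩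
        · rw [Finset.mem_image]
          refine ⟨(a, b), ?_, ?_⟩
          · simp only [Finset.mem_product, Finset.mem_range]
            omega
          · simp only
            rw [Nat.mul_div_cancel_left z (by omega)]
            exact hYrp.symm
      -- if (x z)^2 K^20 ≤ K^163 then x z ≤ K^72
      have hxz72 : (x * z) ^ 2 * K ^ 20 ≤ K ^ 163 → x * z ≤ K ^ 72 := by
        intro h1
        by_contra hgt
        push Not at hgt
        have h2 : (K ^ 72) ^ 2 * K ^ 20 ≤ (x * z) ^ 2 * K ^ 20 :=
          Nat.mul_le_mul_right _ (Nat.pow_le_pow_left hgt.le 2)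
        have h3 : (K ^ 72) ^ 2 * K ^ 20 = K ^ 164 := by rw [← pow_mul, ← pow_add]
        have h4 : K ^ 163 < K ^ 164 := hpowlt (by norm_num)
        omega
      rcases Nat.lt_or_ge a 2 with ha1 | ha2
      · -- a = 1
        have ha1' : a = 1 := by omega
        by_cases hcase : b = 2 ∧ x < K ^ 20
        · right; exact hcon6 hcase.1 hcase.2
        · left
          have hz72 : z ≤ K ^ 72 := by
            by_cases hb3 : 3 ≤ b
            · exact (hz3 hb3).le.trans (hpow (by norm_num))
            · have hb2' : b = 2 := by omega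
              have hx20 : K ^ 20 ≤ x := by
                by_contra hlt
                push Not at hlt
                exact hcase ⟨hb2', hlt⟩
              by_contra hgt
              push Not at hgt
              have h1 : K ^ 20 * (K ^ 72) ^ 2 ≤ x ^ a * z ^ b := by
                rw [ha1', hb2', pow_one]
                exact Nat.mul_le_mul hx20 (Nat.pow_le_pow_left hgt.le 2)
              have h2 : K ^ 20 * (K ^ 72) ^ 2 = K ^ 164 := by rw [← pow_mul, ← pow_add]
              have h3 : K ^ 163 < K ^ 164 := hpowlt (by norm_num)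
              omega
          have hYx : Y = x ::ₘ Multiset.replicate b z := by
            rw [hY, ha1']; simp
          have hS' : x ::ₘ Multiset.replicate b z ∈ Sol n := by rw [← hYx]; exact h
          apply mem_NA hn hS'
          rw [Finset.mem_union]
          right
          unfold A3
          rw [Finset.mem_filter, Multiset.prod_replicate]
          refine ⟨?_, hzb⟩
          rw [Finset.mem_image]
          exact ⟨(z, b), Finset.mem_product.mpr ⟨Finset.mem_range.mpr (by simp only; omega),
            Finset.mem_range.mpr (by simp only; omega)⟩, rfl⟩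
      · right
        by_cases hb3 : 3 ≤ b
        · by_cases hz20 : z < K ^ 20
          · exact hBs (by omega) hz20
          · push Not at hz20
            apply hB5
            apply hxz72
            calc (x * z) ^ 2 * K ^ 20 ≤ (x * z) ^ 2 * z := Nat.mul_le_mul_left _ hz20
              _ = x ^ 2 * z ^ 3 := by ring
              _ ≤ x ^ a * z ^ b := Nat.mul_le_mul (Nat.pow_le_pow_right hx1 ha2)
                (Nat.pow_le_pow_right (by omega) hb3)
              _ ≤ K ^ 163 := hPi
        · have hb2' : b = 2 := by omega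
          by_cases hx20 : x < K ^ 20
          · exact hcon6 hb2' hx20
          · push Not at hx20
            by_cases ha3 : 3 ≤ a
            · apply hB5
              apply hxz72
              calc (x * z) ^ 2 * K ^ 20 ≤ (x * z) ^ 2 * x := Nat.mul_le_mul_left _ hx20
                _ = x ^ 3 * z ^ 2 := by ring
                _ ≤ x ^ a * z ^ b := Nat.mul_le_mul (Nat.pow_le_pow_right hx1 ha3)
                  (Nat.pow_le_pow_right (by omega) hb2)
                _ ≤ K ^ 163 := hPi
            · have ha2' : a = 2 := by omega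
              have hxz82 : x * z ≤ K ^ 82 := by
                by_contra hgt
                push Not at hgt
                have h1 : (K ^ 82) ^ 2 ≤ x ^ a * z ^ b := by
                  rw [ha2', hb2', ← mul_pow]
                  exact Nat.pow_le_pow_left hgt.le 2
                have h2 : (K ^ 82) ^ 2 = K ^ 164 := by rw [← pow_mul]
                have h3 : K ^ 163 < K ^ 164 := hpowlt (by norm_num)
                omega
              have hx41 : x ≤ K ^ 41 := by
                by_contra hgt
                push Not at hgt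
                have h1 : K ^ 41 * K ^ 41 < x * z :=
                  Nat.mul_lt_mul_of_lt_of_le hgt (by omega) (by omega)
                have h2 : K ^ 41 * K ^ 41 = K ^ 82 := by rw [← pow_add]
                omega
              unfold BB
              simp only [Finset.mem_union]
              right
              unfold B7
              rw [Finset.mem_biUnion]
              refine ⟨x, Finset.mem_Icc.mpr ⟨hx2, hx41⟩, ?_⟩
              rw [Finset.mem_image]
              refine ⟨z, ?_, ?_⟩
              · rw [mem_Con]
                refine ⟨?_, hxz.le, ?_⟩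
                · rw [Nat.le_div_iff_mul_le (by omega), mul_comm]; exact hxz82
                · have := con_eq (n := n) (x := x) (z := z) (a := 2) (by omega)
                    (by rw [ha2', hb2'] at hYrp; rw [← hYrp]; exact h) (by omega)
                  exact this
              · rw [ha2', hb2'] at hYrp; exact hYrp.symm

end Pool.Agent.X34.S2
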