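import Pool.Agent.X34.S2.Few2

set_option autoImplicit false

/-! For large `K` some `n` in `[K ^ 80, 2 K ^ 80)` has no solution with at most two distinct entries
different from one. -/

namespace Pool.Agent.X34.S2

open Finset

theorem sum_div_le {K X N : ℕ} (hK : 4 ≤ K) (hX : 1 ≤ X) (h : X < 2 ^ K) :
    ∑ x ∈ Finset.Icc 2 X, N / x ≤ N * K := by
  have h1 : ∑ x ∈ Finset.Icc 2 X, N / x ≤ ∑ x ∈ Finset.Icc 1 X, N / x :=
    Finset.sum_le_sum_of_subset (Finset.Icc_subset_Icc_left (by norm_num))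
  refine h1.trans ?_
  have h2 : ((∑ x ∈ Finset.Icc 1 X, N / x : ℕ) : ℝ) ≤ N * (harmonic X : ℝ) := by
    rw [harmonic_eq_sum_Icc]
    push_cast
    rw [Finset.mul_sum]
    apply Finset.sum_le_sum
    intro x _
    rw [← div_eq_mul_inv]
    exact Nat.cast_div_le
  have h3 : (harmonic X : ℝ) ≤ 1 + Real.log X := harmonic_le_one_add_log X
  have h4 : Real.log X ≤ K * Real.log 2 := by
    rw [← Real.log_pow]
    apply Real.log_le_log (by exact_mod_cast hX)
    exact_mod_cast h.le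
  have h5 : Real.log 2 ≤ 0.7 := by linarith [Real.log_two_lt_d9]
  have hK' : (4 : ℝ) ≤ K := by exact_mod_cast hK
  have h6 : (harmonic X : ℝ) ≤ K := by nlinarith
  have h7 : ((∑ x ∈ Finset.Icc 1 X, N / x : ℕ) : ℝ) ≤ ((N * K : ℕ) : ℝ) := by
    push_cast
    refine (le_trans (by exact_mod_cast h2) (mul_le_mul_of_nonneg_left h6 (Nat.cast_nonneg N)))
  exact_mod_cast h7

theorem card_A1 (K : ℕ) : (A1 K).card ≤ K ^ 56 * (K + 1) := by
  unfold A1
  refine (Finset.card_filter_le _ _).trans (Finset.card_image_le.trans ?_)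
  rw [Finset.card_product, Finset.card_range, Finset.card_range]

theorem card_A3 (K : ℕ) : (A3 K).card ≤ (K ^ 72 + 1) * (K + 1) := by
  unfold A3
  refine (Finset.card_filter_le _ _).trans (Finset.card_image_le.trans ?_)
  rw [Finset.card_product, Finset.card_range, Finset.card_range]

theorem card_B2 (K : ℕ) : (B2 K).card ≤ K ^ 55 * (K + 1) := by
  unfold B2
  refine Finset.card_image_le.trans ?_
  rw [Finset.card_product, Finset.card_range, Finset.card_range]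

theorem card_Bs (K : ℕ) : (Bs K).card ≤ K ^ 20 * K ^ 20 * ((K + 1) * (K + 1)) := by
  unfold Bs
  refine Finset.card_image_le.trans ?_
  rw [Finset.card_product, Finset.card_product, Finset.card_product, Finset.card_range,
    Finset.card_range]

theorem card_B5 {K k : ℕ} (hK : 1 ≤ K) (hk : 72 ≤ k)
    (hdiv : ∀ n : ℕ, n ≤ K ^ k → n.divisors.card ≤ K) :
    (B5 K).card ≤ (K ^ 72 + 1) * (K * ((K + 1) * (K + 1))) := by
  unfold B5
  refine (Finset.card_biUnion_le_card_mul _ _ (K * ((K + 1) * (K + 1))) ?_).trans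
    (by rw [Finset.card_range])
  intro t ht
  have ht' := Finset.mem_range.mp ht
  refine (Finset.card_biUnion_le_card_mul _ _ ((K + 1) * (K + 1)) ?_).trans ?_
  · intro x _
    refine Finset.card_image_le.trans ?_
    rw [Finset.card_product, Finset.card_range]
  · apply Nat.mul_le_mul_right
    apply hdiv
    have := Nat.pow_le_pow_right hK hk
    omega

theorem card_B6 {K : ℕ} (hK : 1 ≤ K) :
    (B6 K).card ≤ K ^ 20 * (K * (K ^ 52 + 1 + K ^ 30 * (2 * K ^ 21 + 4))) := by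
  unfold B6
  refine (Finset.card_biUnion_le_card_mul _ _
    (K * (K ^ 52 + 1 + K ^ 30 * (2 * K ^ 21 + 4))) ?_).trans ?_
  · intro x hx
    obtain ⟨hx2, hx20⟩ := Finset.mem_Icc.mp hx
    refine (Finset.card_biUnion_le_card_mul _ _
      (K ^ 52 + 1 + K ^ 30 * (2 * K ^ 21 + 4)) ?_).trans ?_
    · intro a ha
      obtain ⟨ha1, haK⟩ := Finset.mem_Icc.mp ha
      refine Finset.card_image_le.trans ?_
      have hxa : 2 ≤ x ^ a := by
        calc 2 ≤ x := hx2
          _ = x ^ 1 := (pow_one x).symm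
          _ ≤ x ^ a := Nat.pow_le_pow_right (by omega) ha1
      have h1 := card_Con_le (D := 2 * x ^ a + 2) (e := a * (x * (x - 1))) (x := x) (Z := K ^ 82)
        (W := K ^ 21) (H := K ^ 30) (by omega) (by omega) (Nat.one_le_pow _ _ hK)
        (Nat.one_le_pow _ _ hK) ?_
      · have h2 : K ^ 82 / K ^ 30 = K ^ 52 := by
          rw [Nat.pow_div (by norm_num) hK]
        rw [h2] at h1
        exact h1
      · have h2 : a * (x * (x - 1)) ≤ K ^ 21 * x := by
          calc a * (x * (x - 1)) ≤ K * (x * K ^ 20) :=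
                Nat.mul_le_mul haK (Nat.mul_le_mul_left _ (by omega))
            _ = K ^ 21 * x := by ring
        have h3 : ((a * (x * (x - 1)) : ℕ) : ℝ) ≤ (K : ℝ) ^ 21 * x := by exact_mod_cast h2
        have h4 : (1 : ℝ) ≤ Real.sqrt ((2 * x ^ a + 2 : ℕ) : ℝ) := by
          apply Real.le_sqrt_of_sq_le
          have : (1 : ℝ) ≤ ((2 * x ^ a + 2 : ℕ) : ℝ) := by
            exact_mod_cast (by omega : 1 ≤ 2 * x ^ a + 2)
          linarith
        have h5 : (1 : ℝ) ≤ (K : ℝ) ^ 21 := by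
          exact_mod_cast Nat.one_le_pow 21 K hK
        have h6 : (0 : ℝ) ≤ x := Nat.cast_nonneg x
        calc ((a * (x * (x - 1)) : ℕ) : ℝ) ≤ (K : ℝ) ^ 21 * x := h3
          _ ≤ (2 * ((K ^ 21 : ℕ) : ℝ) - 1) * 1 * x := by
            apply mul_le_mul_of_nonneg_right _ h6
            push_cast; linarith
          _ ≤ (2 * ((K ^ 21 : ℕ) : ℝ) - 1) * Real.sqrt ((2 * x ^ a + 2 : ℕ) : ℝ) * x := by
            apply mul_le_mul_of_nonneg_right _ h6
            apply mul_le_mul_of_nonneg_left h4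
            push_cast; linarith
    · rw [Nat.card_Icc]
      apply Nat.mul_le_mul_right
      omega
  · rw [Nat.card_Icc]
    apply Nat.mul_le_mul_right
    omega

theorem card_B7 {K : ℕ} (hK : 4 ≤ K) (h41 : K ^ 41 < 2 ^ K) :
    (B7 K).card ≤ K ^ 77 + K ^ 41 * (1 + K ^ 6 * 8) := by
  have hK0 : 0 < K := by omega
  unfold B7
  refine Finset.card_biUnion_le.trans ?_
  have h1 : ∀ x ∈ Finset.Icc 2 (K ^ 41),
      ((Con (2 * x ^ 2 + 2) (2 * (x * (x - 1))) x (K ^ 82 / x)).image (fun z => rp x z 2 2)).card ≤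
        K ^ 76 / x + (1 + K ^ 6 * 8) := by
    intro x hx
    obtain ⟨hx2, hx20⟩ := Finset.mem_Icc.mp hx
    refine Finset.card_image_le.trans ?_
    have hxx : 4 ≤ x ^ 2 := by nlinarith
    have h1 := card_Con_le (D := 2 * x ^ 2 + 2) (e := 2 * (x * (x - 1))) (x := x) (Z := K ^ 82 / x)
      (W := 2) (H := K ^ 6) (by omega) (by omega) (by norm_num)
      (Nat.one_le_pow _ _ hK0) ?_
    · have h2 : K ^ 82 / x / K ^ 6 = K ^ 76 / x := by
        rw [Nat.div_div_eq_div_mul, mul_comm, ← Nat.div_div_eq_div_mul, Nat.pow_div (by norm_num) hK0]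
      rw [h2] at h1
      omega
    · have h2 : 2 * (x * (x - 1)) ≤ 2 * (x * x) := by
        apply Nat.mul_le_mul_left
        exact Nat.mul_le_mul_left _ (by omega)
      have h3 : ((2 * (x * (x - 1)) : ℕ) : ℝ) ≤ 2 * (x * x) := by exact_mod_cast h2
      have h4 : (x : ℝ) ≤ Real.sqrt ((2 * x ^ 2 + 2 : ℕ) : ℝ) := by
        apply Real.le_sqrt_of_sq_le
        push_cast
        nlinarith [sq_nonneg (x : ℝ)]
      have h6 : (0 : ℝ) ≤ x := Nat.cast_nonneg x
      have h7 : (x : ℝ) * x ≤ Real.sqrt ((2 * x ^ 2 + 2 : ℕ) : ℝ) * x :=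
        mul_le_mul_of_nonneg_right h4 h6
      have h8 : (0 : ℝ) ≤ (x : ℝ) * x := mul_nonneg h6 h6
      push_cast at h3 h7 ⊢
      linarith
  refine (Finset.sum_le_sum h1).trans ?_
  rw [Finset.sum_add_distrib]
  apply Nat.add_le_add
  · have h2 := sum_div_le (N := K ^ 76) hK (Nat.one_le_pow _ _ hK0 : 1 ≤ K ^ 41) h41
    have h3 : K ^ 76 * K = K ^ 77 := by ring
    omega
  · rw [Finset.sum_const, Nat.card_Icc, smul_eq_mul]
    apply Nat.mul_le_mul_right
    omega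

theorem few : ∃ K0 : ℕ, ∀ K ≥ K0, ∃ n : ℕ, K ^ 80 ≤ n ∧ n < 2 * K ^ 80 ∧
    ∀ Y ∈ Sol n, Y.card < n ∧ 3 ≤ Y.toFinset.card := by
  obtain ⟨K1, hK1⟩ := divisors_le 400
  obtain ⟨K3, hK3⟩ := card_lt
  obtain ⟨K4, hK4⟩ := exists_pow_lt 41
  refine ⟨K1 + K3 + K4 + 1000, fun K hK => ?_⟩
  have hK0 : 0 < K := by omega
  have hdiv := hK1 K (by omega)
  have hcl := hK3 K (by omega)
  have h41 := hK4 K (by omega)
  have hKK : K ≤ K ^ 80 := by
    have h : K ^ 1 ≤ K ^ 80 := Nat.pow_le_pow_right hK0 (by norm_num)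
    rwa [pow_one] at h
  by_contra hno
  push Not at hno
  -- every n is bad
  have hbad : ∀ n ∈ Finset.Ico (K ^ 80) (2 * K ^ 80), ∃ Y ∈ Sol n, Y.toFinset.card ≤ 2 := by
    intro n hn
    obtain ⟨h1, h2⟩ := Finset.mem_Ico.mp hn
    obtain ⟨Y, hY, h3⟩ := hno n h1 h2
    have h4 := hcl n (by omega) h2 Y hY
    exact ⟨Y, hY, by have := h3 (by omega); omega⟩
  classical
  set I := Finset.Ico (K ^ 80) (2 * K ^ 80) with hI
  set I1 := I.filter (fun n => n ∈ NA (A1 K ∪ A3 K)) with hI1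
  set I2 := I.filter (fun n => ∃ Y ∈ BB K, Y ∈ Sol n) with hI2
  have hsub : I ⊆ I1 ∪ I2 := by
    intro n hn
    obtain ⟨h1, h2⟩ := Finset.mem_Ico.mp hn
    obtain ⟨Y, hY, hd⟩ := hbad n hn
    rcases main_cases (by omega) (by omega) h2 hY (hcl n (by omega) h2 Y hY) hd with h3 | h3
    · exact Finset.mem_union_left _ (Finset.mem_filter.mpr ⟨hn, h3⟩)
    · exact Finset.mem_union_right _ (Finset.mem_filter.mpr ⟨hn, Y, h3, hY⟩)
  have c1 : I1.card ≤ (K ^ 56 * (K + 1) + (K ^ 72 + 1) * (K + 1)) * K := by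
    have h1 : I1.card ≤ (NA (A1 K ∪ A3 K)).card := Finset.card_le_card (fun n hn =>
      (Finset.mem_filter.mp hn).2)
    have h2 : (NA (A1 K ∪ A3 K)).card ≤ (A1 K ∪ A3 K).card * K := by
      apply card_NA_le hdiv
      intro Y hY
      have h3 : Y.prod ≤ K ^ 163 := by
        rcases Finset.mem_union.mp hY with h | h
        · exact (Finset.mem_filter.mp h).2
        · exact (Finset.mem_filter.mp h).2
      calc Y.prod * Y.prod ≤ K ^ 163 * K ^ 163 := Nat.mul_le_mul h3 h3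
        _ = K ^ 326 := by rw [← pow_add]
        _ ≤ K ^ 400 := Nat.pow_le_pow_right hK0 (by norm_num)
    have h3 : (A1 K ∪ A3 K).card ≤ K ^ 56 * (K + 1) + (K ^ 72 + 1) * (K + 1) :=
      (Finset.card_union_le _ _).trans (Nat.add_le_add (card_A1 K) (card_A3 K))
    exact h1.trans (h2.trans (Nat.mul_le_mul_right _ h3))
  have c2 : I2.card ≤ (BB K).card := by
    have hch : ∀ n ∈ I2, ∃ Y ∈ BB K, Y ∈ Sol n := fun n hn => (Finset.mem_filter.mp hn).2
    choose! f hf1 hf2 using hch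
    apply Finset.card_le_card_of_injOn f (fun n hn => hf1 n hn)
    intro n hn n' hn' he
    have h1 := hf2 n hn
    have h2 := hf2 n' hn'
    rw [he] at h1
    have h3 := (Finset.mem_Ico.mp (Finset.mem_filter.mp hn).1).1
    have h4 := (Finset.mem_Ico.mp (Finset.mem_filter.mp hn').1).1
    exact Sol_unique (by omega) (by omega) h1 h2
  have c3 : (BB K).card ≤ K ^ 55 * (K + 1) + (K ^ 72 + 1) * (K * ((K + 1) * (K + 1))) +
      K ^ 20 * K ^ 20 * ((K + 1) * (K + 1)) +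
      K ^ 20 * (K * (K ^ 52 + 1 + K ^ 30 * (2 * K ^ 21 + 4))) +
      (K ^ 77 + K ^ 41 * (1 + K ^ 6 * 8)) := by
    unfold BB
    refine (Finset.card_union_le _ _).trans (Nat.add_le_add ?_ (card_B7 (by omega) h41))
    refine (Finset.card_union_le _ _).trans (Nat.add_le_add ?_ (card_B6 (by omega)))
    refine (Finset.card_union_le _ _).trans (Nat.add_le_add ?_ (card_Bs K))
    exact (Finset.card_union_le _ _).trans
      (Nat.add_le_add (card_B2 K) (card_B5 (by omega) (by norm_num) hdiv))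
  have c4 : I.card = K ^ 80 := by rw [hI, Nat.card_Ico]; omega
  have c5 : I.card ≤ I1.card + I2.card :=
    (Finset.card_le_card hsub).trans (Finset.card_union_le _ _)
  -- the numbers
  have g1 : K + 1 ≤ 2 * K := by omega
  have g2 : K ^ 72 + 1 ≤ 2 * K ^ 72 := by have : 0 < K ^ 72 := Nat.pow_pos hK0; omega
  have g3 : K ^ 52 + 1 + K ^ 30 * (2 * K ^ 21 + 4) ≤ 8 * K ^ 52 := by
    have q1 : 2 * K ^ 21 + 4 ≤ 6 * K ^ 21 := by have : 0 < K ^ 21 := Nat.pow_pos hK0; omega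
    have q2 : K ^ 30 * (2 * K ^ 21 + 4) ≤ K ^ 30 * (6 * K ^ 21) := Nat.mul_le_mul_left _ q1
    have q3 : K ^ 30 * (6 * K ^ 21) = 6 * K ^ 51 := by ring
    have q4 : K ^ 51 ≤ K ^ 52 := Nat.pow_le_pow_right hK0 (by norm_num)
    have q5 : 0 < K ^ 52 := Nat.pow_pos hK0
    omega
  have g4 : 1 + K ^ 6 * 8 ≤ 9 * K ^ 6 := by have : 0 < K ^ 6 := Nat.pow_pos hK0; omega
  have d1 : (K ^ 56 * (K + 1) + (K ^ 72 + 1) * (K + 1)) * K ≤ 2 * K ^ 58 + 4 * K ^ 74 := by
    calc (K ^ 56 * (K + 1) + (K ^ 72 + 1) * (K + 1)) * K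
        ≤ (K ^ 56 * (2 * K) + (2 * K ^ 72) * (2 * K)) * K := by gcongr
      _ = 2 * K ^ 58 + 4 * K ^ 74 := by ring
  have d2 : K ^ 55 * (K + 1) + (K ^ 72 + 1) * (K * ((K + 1) * (K + 1))) +
      K ^ 20 * K ^ 20 * ((K + 1) * (K + 1)) +
      K ^ 20 * (K * (K ^ 52 + 1 + K ^ 30 * (2 * K ^ 21 + 4))) +
      (K ^ 77 + K ^ 41 * (1 + K ^ 6 * 8)) ≤
      2 * K ^ 56 + 8 * K ^ 75 + 4 * K ^ 42 + 8 * K ^ 73 + (K ^ 77 + 9 * K ^ 47) := by
    calc _ ≤ K ^ 55 * (2 * K) + (2 * K ^ 72) * (K * ((2 * K) * (2 * K))) +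
      K ^ 20 * K ^ 20 * ((2 * K) * (2 * K)) + K ^ 20 * (K * (8 * K ^ 52)) +
      (K ^ 77 + K ^ 41 * (9 * K ^ 6)) := by gcongr
      _ = _ := by ring
  have m1 : K ^ 58 ≤ K ^ 77 := Nat.pow_le_pow_right hK0 (by norm_num)
  have m2 : K ^ 74 ≤ K ^ 77 := Nat.pow_le_pow_right hK0 (by norm_num)
  have m3 : K ^ 56 ≤ K ^ 77 := Nat.pow_le_pow_right hK0 (by norm_num)
  have m4 : K ^ 75 ≤ K ^ 77 := Nat.pow_le_pow_right hK0 (by norm_num)
  have m5 : K ^ 42 ≤ K ^ 77 := Nat.pow_le_pow_right hK0 (by norm_num)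
  have m6 : K ^ 73 ≤ K ^ 77 := Nat.pow_le_pow_right hK0 (by norm_num)
  have m7 : K ^ 47 ≤ K ^ 77 := Nat.pow_le_pow_right hK0 (by norm_num)
  have m8 : 1000 * K ^ 77 ≤ K ^ 80 := by
    calc 1000 * K ^ 77 ≤ K * K ^ 77 := Nat.mul_le_mul_right _ (by omega)
      _ = K ^ 78 := by ring
      _ ≤ K ^ 80 := Nat.pow_le_pow_right hK0 (by norm_num)
  have m9 : 0 < K ^ 77 := Nat.pow_pos hK0
  omega

end Pool.Agent.X34.S2
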