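import Pool.Agent.X34.S2.Crude
import Pool.Agent.X34.S2.Div

set_option autoImplicit false

/-! Counting the solutions whose largest entry is at least `K ^ 6`. -/

namespace Pool.Agent.X34.S2

open Finset

/-- The number divisible by `D`. -/
def qq (Y : Multiset ℕ) : ℕ := Y.prod * (Y.prod - 1) - v Y

/-- The solution given by the smaller entries and `D`. -/
def gg (Y : Multiset ℕ) (D : ℕ) : ℕ × Multiset ℕ :=
  (Y.prod - D + 1 - u Y, (((Y.prod - D) * (Y.prod - D - 1) - v Y) / (2 * D)) ::ₘ Y)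

/-- The cover. -/
noncomputable def LF (X : ℕ) : Finset (ℕ × Multiset ℕ) :=
  (MS_finite X).toFinset.biUnion (fun Y => (qq Y).divisors.image (gg Y))

theorem mem_LF {n z X : ℕ} {Y : Multiset ℕ} (hn : 3 ≤ n) (h : z ::ₘ Y ∈ Sol n)
    (hX : Y.prod ≤ X) : (n, z ::ₘ Y) ∈ LF X := by
  obtain ⟨h1, h2, h3, -⟩ := main_facts hn h
  obtain ⟨hz2, hY⟩ := h.1.of_cons
  obtain ⟨b, hb⟩ : ∃ b, n = b + 2 := ⟨n - 2, by omega⟩
  have e3 : n - 1 + u Y = b + 1 + u Y := by omega
  have e4 : n - 2 + u Y = b + u Y := by omega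
  rw [e3, e4] at h1
  obtain ⟨D, hD⟩ : ∃ D, Y.prod = b + 1 + u Y + D := ⟨Y.prod - (b + 1 + u Y), by omega⟩
  have hD1 : 1 ≤ D := by omega
  have k1 : 2 * D * z + v Y = (b + 1 + u Y) * (b + u Y) := by
    rw [hD] at h1
    nlinarith
  have k2 : qq Y = D * (2 * z + (2 * (b + u Y) + 1 + D)) := by
    unfold qq
    rw [hD]
    have e5 : b + 1 + u Y + D - 1 = b + u Y + D := by omega
    rw [e5]
    have k3 : (b + 1 + u Y + D) * (b + u Y + D) =
        D * (2 * z + (2 * (b + u Y) + 1 + D)) + v Y := by nlinarith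
    omega
  unfold LF
  rw [Finset.mem_biUnion]
  refine ⟨Y, ?_, ?_⟩
  · rw [Set.Finite.mem_toFinset]
    exact ⟨hY, hX⟩
  · rw [Finset.mem_image]
    refine ⟨D, ?_, ?_⟩
    · rw [Nat.mem_divisors]
      refine ⟨⟨_, k2⟩, ?_⟩
      rw [k2]
      apply Nat.mul_ne_zero (by omega) (by omega)
    · unfold gg
      rw [hD]
      have e6 : b + 1 + u Y + D - D = b + 1 + u Y := by omega
      have e7 : b + 1 + u Y - 1 = b + u Y := by omega
      have e8 : (b + 1 + u Y) * (b + u Y) - v Y = 2 * D * z := by omega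
      rw [e6, e7, e8, Nat.mul_div_cancel_left z (by omega)]
      ext1
      · show b + 1 + u Y + 1 - u Y = n
        omega
      · rfl

theorem card_LF_le {K k X : ℕ} (hdiv : ∀ n : ℕ, n ≤ K ^ k → n.divisors.card ≤ K)
    (hX : X * X ≤ K ^ k) (hMS : (MS X).ncard ≤ K * X) : (LF X).card ≤ K * X * K := by
  have h1 : (MS_finite X).toFinset.card ≤ K * X := by
    rw [← Set.ncard_eq_toFinset_card _ (MS_finite X)]; exact hMS
  refine (Finset.card_biUnion_le_card_mul _ _ K ?_).trans (Nat.mul_le_mul_right _ h1)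
  intro Y hY
  rw [Set.Finite.mem_toFinset] at hY
  refine Finset.card_image_le.trans (hdiv _ ?_)
  unfold qq
  have h2 : Y.prod * (Y.prod - 1) ≤ X * X := Nat.mul_le_mul hY.2 ((Nat.sub_le _ _).trans hY.2)
  omega

end Pool.Agent.X34.S2
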