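import Pool.Agent.X34.S2.Family

set_option autoImplicit false

/-! The choice of the parameters. -/

namespace Pool.Agent.X34.S2

open Finset

theorem prime_supply : ∃ J : ℕ, ∀ j ≥ J, ∀ i : ℕ, i < 640000 * j ^ 100 →
    Nat.nth Nat.Prime i ≤ j ^ 101 := by
  have h := Real.isLittleO_log_id_atTop.bound (show (0 : ℝ) < 1 / 10 ^ 9 by norm_num)
  have h1 := tendsto_natCast_atTop_atTop.eventually h
  obtain ⟨J, hJ⟩ := Filter.eventually_atTop.mp h1
  refine ⟨J + 1000, fun j hj i hi => ?_⟩
  have hj1 : (1000 : ℝ) ≤ j := by exact_mod_cast (by omega : 1000 ≤ j)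
  have h2 : Real.log j ≤ 1 / 10 ^ 9 * j := by
    have h3 := hJ j (by omega)
    simp only [id_eq, Real.norm_eq_abs] at h3
    rw [abs_of_nonneg (Real.log_nonneg (by linarith)), abs_of_nonneg (by linarith)] at h3
    exact h3
  set x := j ^ 101 with hx
  have hxr : (x : ℝ) = (j : ℝ) ^ 101 := by rw [hx]; push_cast; rfl
  have hlogx : Real.log x = 101 * Real.log j := by
    rw [hxr, Real.log_pow]; norm_num
  have hp100 : (0 : ℝ) < (j : ℝ) ^ 100 := by positivity
  have hxj : (x : ℝ) = j * (j : ℝ) ^ 100 := by rw [hxr]; ring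
  have hjx : (j : ℝ) ≤ x := by
    rw [hxj]
    have : (1 : ℝ) ≤ (j : ℝ) ^ 100 := one_le_pow₀ (by linarith)
    nlinarith
  have hx0 : (0 : ℝ) < x := by linarith
  have hpsi := Chebyshev.psi_ge x
  have hpi := Chebyshev.psi_le_primeCounting_mul_log x
  have hlog2 : (0.69 : ℝ) < Real.log 2 := by linarith [Real.log_two_gt_d9]
  have hlogx1 : Real.log (x + 1) ≤ 0.1 * x := by
    have h4 : Real.log ((x : ℝ) + 1) ≤ Real.log (2 * x) := Real.log_le_log (by linarith) (by linarith)
    rw [Real.log_mul (by norm_num) hx0.ne', hlogx] at h4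
    have h5 : Real.log 2 < 1 := by linarith [Real.log_two_lt_d9]
    nlinarith
  -- compare
  have hkey : (640000 : ℝ) * (j : ℝ) ^ 100 < Nat.primeCounting x := by
    by_contra hle
    push Not at hle
    have hl0 : 0 ≤ Real.log x := Real.log_nonneg (by linarith)
    have h6 : (Nat.primeCounting x : ℝ) * Real.log x ≤ 640000 * (j : ℝ) ^ 100 * Real.log x :=
      mul_le_mul_of_nonneg_right hle hl0
    have h7 : 640000 * (j : ℝ) ^ 100 * Real.log x ≤ 0.1 * x := by
      rw [hlogx, hxj]
      have h8 : (101 : ℝ) * Real.log j * 640000 ≤ 0.1 * j := by nlinarith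
      nlinarith
    nlinarith
  have hkey' : 640000 * j ^ 100 < Nat.primeCounting x := by exact_mod_cast hkey
  have h9 : i < Nat.count Nat.Prime (x + 1) := by
    have h10 : Nat.primeCounting x = Nat.count Nat.Prime (x + 1) := rfl
    omega
  have h11 := Nat.nth_lt_of_lt_count h9
  omega

theorem lower : ∃ J : ℕ, ∀ j ≥ J, ∃ n : ℕ, 3 ≤ n ∧ n ≤ ((j ^ 101) ^ (8000 * j ^ 100)) ^ 80 ∧
    ((j ^ 101) ^ (8000 * j ^ 100)) ^ 79 ≤ (Sol n).ncard := by
  obtain ⟨J, hJ⟩ := prime_supply
  refine ⟨J + 5000, fun j hj => ?_⟩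
  have hsup := hJ j (by omega)
  have hj0 : 0 < j := by omega
  set k := j ^ 100 with hk
  have hkj : j ≤ k := by
    rw [hk]
    calc j = j ^ 1 := (pow_one j).symm
      _ ≤ j ^ 100 := Nat.pow_le_pow_right hj0 (by norm_num)
  set x := j ^ 101 with hx
  have hinj : Function.Injective (Nat.nth Nat.Prime) := Nat.nth_injective Nat.infinite_setOfPred_prime
  have hq0 : 0 < 800 * k := by omega
  have hkey := family (q := 800 * k) (r := 799) (x := x)
    (b := fun i => Nat.nth Nat.Prime i) (a := fun e i => Nat.nth Nat.Prime ((e + 1) * (800 * k) + i))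
    (fun i => Nat.prime_nth_prime _) (fun e i => Nat.prime_nth_prime _)
    (fun i i' h => Fin.ext (hinj h))
    (fun e i e' i' h => by
      have h1 := hinj h
      have hi := i.isLt
      have hi' := i'.isLt
      have h2 : ((e : ℕ) + 1) = (e' : ℕ) + 1 := by
        have d1 : (((e : ℕ) + 1) * (800 * k) + i) / (800 * k) = (e : ℕ) + 1 := by
          rw [mul_comm, Nat.mul_add_div hq0, Nat.div_eq_of_lt hi, add_zero]
        have d2 : (((e' : ℕ) + 1) * (800 * k) + i') / (800 * k) = (e' : ℕ) + 1 := by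
          rw [mul_comm, Nat.mul_add_div hq0, Nat.div_eq_of_lt hi', add_zero]
        rw [← d1, ← d2, h1]
      refine ⟨Fin.ext (by omega), Fin.ext ?_⟩
      rw [h2] at h1
      omega)
    (fun i e i' h => by
      have h1 := hinj h
      have hi := i.isLt
      have h2 : 1 * (800 * k) ≤ ((e : ℕ) + 1) * (800 * k) := Nat.mul_le_mul_right _ (by omega)
      omega)
    (fun i => hsup _ (by have := i.isLt; omega))
    (fun e i => hsup _ (by
      have hi := i.isLt
      have he := e.isLt
      have h2 : ((e : ℕ) + 1) * (800 * k) ≤ 799 * (800 * k) := Nat.mul_le_mul_right _ (by omega)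
      omega))
    hq0 (T := (x ^ (8000 * k)) ^ 79) ?_ ?_
  · obtain ⟨n, h1, h2, h3⟩ := hkey
    refine ⟨n, h1, ?_, h3⟩
    refine h2.trans (le_of_eq ?_)
    have e1 : (799 + 1) * (800 * k) = (8000 * k) * 80 := by ring
    rw [e1, pow_mul]
  · -- the factorial inequality
    have f1 : k ^ (799 * k) ≤ (800 * k).factorial := by
      have h1 := Nat.factorial_mul_pow_le_factorial (m := k) (n := 799 * k)
      have h2 : k + 799 * k = 800 * k := by ring
      rw [h2] at h1
      calc k ^ (799 * k) ≤ (k + 1) ^ (799 * k) := Nat.pow_le_pow_left (by omega) _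
        _ ≤ k.factorial * (k + 1) ^ (799 * k) := Nat.le_mul_of_pos_left _ (Nat.factorial_pos k)
        _ ≤ _ := h1
    have f2 : j ^ (63840100 * k) ≤ (800 * k).factorial ^ 799 := by
      calc j ^ (63840100 * k) = (k ^ (799 * k)) ^ 799 := by
            rw [hk, ← pow_mul, ← pow_mul]; congr 1; ring
        _ ≤ _ := Nat.pow_le_pow_left f1 _
    refine le_trans ?_ f2
    have f3 : (x ^ (8000 * k)) ^ 79 = j ^ (63832000 * k) := by
      rw [hx, ← pow_mul, ← pow_mul]; congr 1; ring
    have f4 : x ^ (799 + 1) = j ^ 80800 := by rw [hx, ← pow_mul]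
    have f5 : 800 * k * x ^ (799 + 1) + 1 ≤ j ^ 80901 := by
      rw [f4, hk]
      have g1 : 800 * j ^ 100 * j ^ 80800 = 800 * j ^ 80900 := by rw [mul_assoc, ← pow_add]
      have g2 : j ^ 80901 = j * j ^ 80900 := by rw [← pow_succ']
      have g3 : 0 < j ^ 80900 := Nat.pow_pos hj0
      have g4 : 801 * j ^ 80900 ≤ j * j ^ 80900 := Nat.mul_le_mul_right _ (by omega)
      rw [g1, g2]
      generalize j ^ 80900 = w at *
      omega
    rw [f3]
    calc (800 * k * x ^ (799 + 1) + 1) * j ^ (63832000 * k) ≤ j ^ 80901 * j ^ (63832000 * k) :=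
          Nat.mul_le_mul_right _ f5
      _ = j ^ (80901 + 63832000 * k) := by rw [← pow_add]
      _ ≤ j ^ (63840100 * k) := Nat.pow_le_pow_right hj0 (by omega)
  · -- the size inequality
    have f4 : x ^ (799 + 1) = j ^ 80800 := by rw [hx, ← pow_mul]
    rw [f4, ← pow_mul]
    have g1 : 4 * (800 * k * j ^ (80800 * 2)) + 10 ≤ j ^ 161701 := by
      have g1 : 800 * k * j ^ (80800 * 2) = 800 * j ^ 161700 := by
        rw [hk, mul_assoc, ← pow_add]
      have g2 : j ^ 161701 = j * j ^ 161700 := by rw [← pow_succ']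
      have g3 : 0 < j ^ 161700 := Nat.pow_pos hj0
      have g4 : 5000 * j ^ 161700 ≤ j * j ^ 161700 := Nat.mul_le_mul_right _ (by omega)
      rw [g1, g2]
      generalize j ^ 161700 = w at *
      omega
    refine g1.trans ?_
    have g5 : j ≤ 2 ^ j := Nat.lt_two_pow_self.le
    calc j ^ 161701 ≤ (2 ^ j) ^ 161701 := Nat.pow_le_pow_left g5 _
      _ = 2 ^ (j * 161701) := by rw [← pow_mul]
      _ ≤ 2 ^ (800 * k) := by
        apply Nat.pow_le_pow_right (by norm_num)
        have g6 : j * j ≤ k := by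
          rw [hk]
          calc j * j = j ^ 2 := by ring
            _ ≤ j ^ 100 := Nat.pow_le_pow_right hj0 (by norm_num)
        have g7 : 5000 * j ≤ j * j := Nat.mul_le_mul_right _ (by omega)
        omega

end Pool.Agent.X34.S2
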