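import Pool.Agent.X34.S2.Crude
import Pool.Agent.X34.S2.Div

set_option autoImplicit false

/-! Counting the solutions whose entries are all less than `K ^ 6`. -/

namespace Pool.Agent.X34.S2

open Finset

/-- The factorizations of `P`. -/
noncomputable def Fs (P : ℕ) : Finset (Multiset ℕ) :=
  (MS_finite P).toFinset.filter (fun Y => Y.prod = P)

theorem mem_Fs {P : ℕ} {Y : Multiset ℕ} : Y ∈ Fs P ↔ Big Y ∧ Y.prod = P := by
  unfold Fs
  rw [Finset.mem_filter, Set.Finite.mem_toFinset]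
  constructor
  · rintro ⟨h1, h2⟩
    exact ⟨h1.1, h2⟩
  · rintro ⟨h1, h2⟩
    exact ⟨⟨h1, h2.le⟩, h2⟩

/-- Numbers at most `m` with at least `T` factorizations. -/
noncomputable def BadP (m T : ℕ) : Finset ℕ := (Finset.range (m + 1)).filter (fun P => T ≤ (Fs P).card)

theorem card_BadP {m T K : ℕ} (hMS : (MS m).ncard ≤ K * m) : (BadP m T).card * T ≤ K * m := by
  have h1 : ∑ P ∈ BadP m T, T ≤ ∑ P ∈ BadP m T, (Fs P).card :=
    Finset.sum_le_sum (fun P hP => (Finset.mem_filter.mp hP).2)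
  have h2 : ((BadP m T).biUnion Fs).card = ∑ P ∈ BadP m T, (Fs P).card := by
    apply Finset.card_biUnion
    intro P _ Q _ hPQ
    rw [Function.onFun, Finset.disjoint_left]
    intro Y h3 h4
    exact hPQ ((mem_Fs.mp h3).2.symm.trans (mem_Fs.mp h4).2)
  have h3 : ((BadP m T).biUnion Fs) ⊆ (MS_finite m).toFinset := by
    intro Y hY
    obtain ⟨P, hP, hY⟩ := Finset.mem_biUnion.mp hY
    rw [Set.Finite.mem_toFinset]
    obtain ⟨h4, h5⟩ := mem_Fs.mp hY
    have h6 := Finset.mem_range.mp (Finset.mem_filter.mp hP).1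
    exact ⟨h4, by omega⟩
  have h4 := Finset.card_le_card h3
  rw [← Set.ncard_eq_toFinset_card _ (MS_finite m)] at h4
  rw [Finset.sum_const, smul_eq_mul] at h1
  omega

/-- The exceptional set. -/
noncomputable def Ex (K : ℕ) : Finset ℕ :=
  ((BadP (K ^ 80) (K ^ 40)).filter (fun P => K ^ 80 < K ^ 6 * P)).biUnion (fun P =>
    (Finset.range (K ^ 13 + 1)).biUnion (fun V =>
      (Rt P V (3 * K ^ 80)).biUnion (fun s =>
        (Finset.range (K ^ 7 + 1)).image (fun U => s - U))))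

/-- The cover of the remaining solutions. -/
noncomputable def SF (K : ℕ) : Finset (ℕ × Multiset ℕ) :=
  ((MS_finite (5 * K ^ 86)).toFinset.filter (fun Y => K ^ 80 ≤ 4 * Y.prod)).biUnion (fun Y =>
    (Finset.range (K ^ 13 + 1)).biUnion (fun V =>
      (Rt Y.prod V (3 * K ^ 80)).biUnion (fun s =>
        if (Fs ((s * (s - 1) - V) / (2 * Y.prod))).card < K ^ 40 then
          (Fs ((s * (s - 1) - V) / (2 * Y.prod))).image (fun Z => (s - u (Z + Y), Z + Y))
        else ∅)))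

theorem Rt_card_le {K k P V B : ℕ} (hK : 2 ≤ K)
    (hdiv : ∀ n : ℕ, n ≤ K ^ k → n.divisors.card ≤ K) (hP : P ≤ K ^ k) (hP0 : 0 < P)
    (hV : V ≤ K ^ 13) (hB : 9 * K ^ 87 ≤ B * P) :
    (Rt P V (3 * K ^ 80)).card ≤ K * (B + 1) := by
  have hG : 4 * V + 1 ≤ (3 * K ^ 7) ^ 2 := by
    have e1 : (3 * K ^ 7) ^ 2 = 9 * K ^ 14 := by ring
    have e2 : K ^ 14 = K * K ^ 13 := by ring
    have e3 : 0 < K ^ 13 := Nat.pow_pos (by omega)
    have e4 : 2 * K ^ 13 ≤ K * K ^ 13 := Nat.mul_le_mul_right _ hK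
    omega
  refine (card_Rt_le hP0 hG).trans ?_
  apply Nat.mul_le_mul (hdiv P hP)
  apply Nat.add_le_add_right
  rw [Nat.div_le_iff_le_mul_add_pred hP0]
  have e5 : 3 * K ^ 80 * (3 * K ^ 7) = 9 * K ^ 87 := by ring
  have e6 : B * P = P * B := Nat.mul_comm _ _
  omega

theorem card_Ex_le {K k : ℕ} (hK : 2 ≤ K) (hk : 80 ≤ k)
    (hdiv : ∀ n : ℕ, n ≤ K ^ k → n.divisors.card ≤ K) (hMS : (MS (K ^ 80)).ncard ≤ K * K ^ 80) :
    (Ex K).card ≤ 40 * K ^ 75 := by
  have hK0 : 0 < K := by omega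
  have hb : (BadP (K ^ 80) (K ^ 40)).card ≤ K ^ 41 := by
    have h1 := card_BadP (T := K ^ 40) hMS
    have h2 : K * K ^ 80 = K ^ 41 * K ^ 40 := by ring
    rw [h2] at h1
    exact Nat.le_of_mul_le_mul_right h1 (Nat.pow_pos hK0)
  have h1 : ∀ P ∈ ((BadP (K ^ 80) (K ^ 40)).filter (fun P => K ^ 80 < K ^ 6 * P)),
      ((Finset.range (K ^ 13 + 1)).biUnion (fun V =>
      (Rt P V (3 * K ^ 80)).biUnion (fun s =>
        (Finset.range (K ^ 7 + 1)).image (fun U => s - U)))).card ≤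
        (K ^ 13 + 1) * (K * (9 * K ^ 13 + 1) * (K ^ 7 + 1)) := by
    intro P hP
    obtain ⟨hP1, hP2⟩ := Finset.mem_filter.mp hP
    have hP3 := Finset.mem_range.mp (Finset.mem_filter.mp hP1).1
    have hP0 : 0 < P := by
      rcases Nat.eq_zero_or_pos P with h | h
      · subst h; omega
      · exact h
    refine (Finset.card_biUnion_le_card_mul _ _ (K * (9 * K ^ 13 + 1) * (K ^ 7 + 1)) ?_).trans ?_
    · intro V hV
      have hV' := Finset.mem_range.mp hV
      refine (Finset.card_biUnion_le_card_mul _ _ (K ^ 7 + 1) ?_).trans ?_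
      · intro s _
        refine Finset.card_image_le.trans ?_
        rw [Finset.card_range]
      · apply Nat.mul_le_mul_right
        apply Rt_card_le hK hdiv _ hP0 (by omega)
        · have e1 : 9 * K ^ 87 = 9 * K ^ 7 * K ^ 80 := by ring
          have e2 : 9 * K ^ 13 * P = 9 * K ^ 7 * (K ^ 6 * P) := by ring
          rw [e1, e2]
          exact Nat.mul_le_mul_left _ hP2.le
        · have := Nat.pow_le_pow_right hK0 hk
          omega
    · rw [Finset.card_range]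
  have h2 : (Ex K).card ≤ K ^ 41 * ((K ^ 13 + 1) * (K * (9 * K ^ 13 + 1) * (K ^ 7 + 1))) := by
    refine (Finset.card_biUnion_le_card_mul _ _ _ h1).trans ?_
    apply Nat.mul_le_mul_right
    exact (Finset.card_filter_le _ _).trans hb
  refine h2.trans ?_
  have a1 : K ^ 13 + 1 ≤ 2 * K ^ 13 := by have : 0 < K ^ 13 := Nat.pow_pos hK0; omega
  have a2 : 9 * K ^ 13 + 1 ≤ 10 * K ^ 13 := by have : 0 < K ^ 13 := Nat.pow_pos hK0; omega
  have a3 : K ^ 7 + 1 ≤ 2 * K ^ 7 := by have : 0 < K ^ 7 := Nat.pow_pos hK0; omega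
  calc K ^ 41 * ((K ^ 13 + 1) * (K * (9 * K ^ 13 + 1) * (K ^ 7 + 1)))
      ≤ K ^ 41 * ((2 * K ^ 13) * (K * (10 * K ^ 13) * (2 * K ^ 7))) := by gcongr
    _ = 40 * K ^ 75 := by ring

theorem card_SF_le {K k : ℕ} (hK : 5 ≤ K) (hk : 87 ≤ k)
    (hdiv : ∀ n : ℕ, n ≤ K ^ k → n.divisors.card ≤ K)
    (hMS : (MS (5 * K ^ 86)).ncard ≤ K * (5 * K ^ 86)) :
    (SF K).card ≤ 370 * K ^ 148 := by
  have hK0 : 0 < K := by omega
  have h1 : ∀ Y ∈ ((MS_finite (5 * K ^ 86)).toFinset.filter (fun Y => K ^ 80 ≤ 4 * Y.prod)),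
      ((Finset.range (K ^ 13 + 1)).biUnion (fun V =>
      (Rt Y.prod V (3 * K ^ 80)).biUnion (fun s =>
        if (Fs ((s * (s - 1) - V) / (2 * Y.prod))).card < K ^ 40 then
          (Fs ((s * (s - 1) - V) / (2 * Y.prod))).image (fun Z => (s - u (Z + Y), Z + Y))
        else ∅))).card ≤ (K ^ 13 + 1) * (K * (36 * K ^ 7 + 1) * K ^ 40) := by
    intro Y hY
    obtain ⟨hY1, hY2⟩ := Finset.mem_filter.mp hY
    rw [Set.Finite.mem_toFinset] at hY1
    have hP0 : 0 < Y.prod := hY1.1.prod_pos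
    refine (Finset.card_biUnion_le_card_mul _ _ (K * (36 * K ^ 7 + 1) * K ^ 40) ?_).trans ?_
    · intro V hV
      have hV' := Finset.mem_range.mp hV
      refine (Finset.card_biUnion_le_card_mul _ _ (K ^ 40) ?_).trans ?_
      · intro s _
        split_ifs with h
        · exact Finset.card_image_le.trans h.le
        · simp
      · apply Nat.mul_le_mul_right
        apply Rt_card_le (by omega) hdiv _ hP0 (by omega)
        · have e1 : 9 * K ^ 87 = 9 * K ^ 7 * K ^ 80 := by ring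
          have e2 : 36 * K ^ 7 * Y.prod = 9 * K ^ 7 * (4 * Y.prod) := by ring
          rw [e1, e2]
          exact Nat.mul_le_mul_left _ hY2
        · have h3 : 5 * K ^ 86 ≤ K * K ^ 86 := Nat.mul_le_mul_right _ hK
          have h4 : K * K ^ 86 = K ^ 87 := by ring
          have h5 := Nat.pow_le_pow_right hK0 hk
          have := hY1.2
          omega
    · rw [Finset.card_range]
  have h2 : (SF K).card ≤ (K * (5 * K ^ 86)) * ((K ^ 13 + 1) * (K * (36 * K ^ 7 + 1) * K ^ 40)) := by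
    refine (Finset.card_biUnion_le_card_mul _ _ _ h1).trans ?_
    apply Nat.mul_le_mul_right
    refine (Finset.card_filter_le _ _).trans ?_
    rw [← Set.ncard_eq_toFinset_card _ (MS_finite _)]
    exact hMS
  refine h2.trans ?_
  have a1 : K ^ 13 + 1 ≤ 2 * K ^ 13 := by have : 0 < K ^ 13 := Nat.pow_pos hK0; omega
  have a3 : 36 * K ^ 7 + 1 ≤ 37 * K ^ 7 := by have : 0 < K ^ 7 := Nat.pow_pos hK0; omega
  calc (K * (5 * K ^ 86)) * ((K ^ 13 + 1) * (K * (36 * K ^ 7 + 1) * K ^ 40))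
      ≤ (K * (5 * K ^ 86)) * ((2 * K ^ 13) * (K * (37 * K ^ 7) * K ^ 40)) := by gcongr
    _ = 370 * K ^ 148 := by ring

theorem mem_small {K n : ℕ} {Y : Multiset ℕ} (hK : 10 ≤ K) (hn : K ^ 80 ≤ n)
    (hn2 : n < 2 * K ^ 80) (h : Y ∈ Sol n) (hc : Y.card ≤ K) (hy : ∀ y ∈ Y, y ≤ K ^ 6) :
    n ∈ Ex K ∨ (n, Y) ∈ SF K := by
  have hK0 : 0 < K := by omega
  obtain ⟨hB, hcn, hE⟩ := h
  have hU : u Y ≤ K ^ 7 := by
    have h1 := u_le hy
    have h2 : Y.card * K ^ 6 ≤ K * K ^ 6 := Nat.mul_le_mul_right _ hc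
    have h3 : K * K ^ 6 = K ^ 7 := by ring
    omega
  have hV : v Y ≤ K ^ 13 := by
    have h1 := v_le' hy
    have h2 : Y.card * (K ^ 6) ^ 2 ≤ K * (K ^ 6) ^ 2 := Nat.mul_le_mul_right _ hc
    have h3 : K * (K ^ 6) ^ 2 = K ^ 13 := by ring
    omega
  have hp80 : 10 * K ^ 13 ≤ K ^ 80 := by
    have h1 : 10 * K ^ 13 ≤ K * K ^ 13 := Nat.mul_le_mul_right _ hK
    have h2 : K * K ^ 13 = K ^ 14 := by ring
    have h3 : K ^ 14 ≤ K ^ 80 := Nat.pow_le_pow_right hK0 (by omega)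
    omega
  have hp7 : K ^ 7 ≤ K ^ 80 := Nat.pow_le_pow_right hK0 (by omega)
  have hp13 : 0 < K ^ 13 := Nat.pow_pos hK0
  set m := K ^ 80 with hm
  have hm10 : 10 ≤ m := by omega
  set s := n + u Y with hs
  have hs1 : m ≤ s := by omega
  have hs3 : s ≤ 3 * m := by omega
  -- s (s - 1)
  have hss : s * (s - 1) + s = s * s := by
    obtain ⟨r, hr⟩ : ∃ r, s = r + 1 := ⟨s - 1, by omega⟩
    rw [hr]
    have : r + 1 - 1 = r := by omega
    rw [this]; ring
  have hmm : m * m ≤ s * s := Nat.mul_le_mul hs1 hs1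
  have hss2 : s * s ≤ 3 * m * (3 * m) := Nat.mul_le_mul hs3 hs3
  have h10m : 10 * m ≤ m * m := Nat.mul_le_mul_right _ hm10
  set P := Y.prod with hP
  have hPlow : m * m ≤ 4 * P := by omega
  have hPup : 2 * P ≤ 9 * (m * m) := by
    have : 3 * m * (3 * m) = 9 * (m * m) := by ring
    omega
  have hPm : m < P := by omega
  obtain ⟨Z, hZ, z1, z2⟩ := greedy (by omega : 1 ≤ m) hy hPm
  obtain ⟨W, hW⟩ := Multiset.le_iff_exists_add.mp hZ
  have hPZW : P = Z.prod * W.prod := by rw [hP, hW, Multiset.prod_add]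
  have hBZ : Big Z := hB.mono hZ
  have hBW : Big W := hB.mono (by rw [hW]; exact Multiset.le_add_left _ _)
  have hsV : (s : ℤ) * (s - 1) - (v Y : ℕ) = 2 * P := by
    have h1 : ((2 * P + v Y : ℕ) : ℤ) = ((s * (s - 1) : ℕ) : ℤ) := by exact_mod_cast hE
    push_cast [Nat.cast_sub (by omega : 1 ≤ s)] at h1
    linarith
  by_cases hbad : K ^ 40 ≤ (Fs Z.prod).card
  · left
    unfold Ex
    rw [Finset.mem_biUnion]
    refine ⟨Z.prod, ?_, ?_⟩
    · rw [Finset.mem_filter]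
      refine ⟨?_, z2⟩
      unfold BadP
      rw [Finset.mem_filter, Finset.mem_range]
      exact ⟨by omega, hbad⟩
    · rw [Finset.mem_biUnion]
      refine ⟨v Y, Finset.mem_range.mpr (by omega), ?_⟩
      rw [Finset.mem_biUnion]
      refine ⟨s, mem_Rt.mpr ⟨hs3, ?_⟩, ?_⟩
      · rw [hsV, hPZW]
        push_cast
        exact Dvd.dvd.mul_left (Dvd.intro _ rfl) _
      · rw [Finset.mem_image]
        exact ⟨u Y, Finset.mem_range.mpr (by omega), by omega⟩
  · right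
    push Not at hbad
    have hZ0 : 0 < Z.prod := hBZ.prod_pos
    have hW0 : 0 < W.prod := hBW.prod_pos
    have hW1 : W.prod ≤ 5 * K ^ 86 := by
      by_contra hlt
      push Not at hlt
      have h1 : m * W.prod ≤ K ^ 6 * Z.prod * W.prod := Nat.mul_le_mul_right _ z2.le
      have h2 : K ^ 6 * Z.prod * W.prod = K ^ 6 * P := by rw [hPZW]; ring
      have h3 : m * (5 * K ^ 86) < m * W.prod := Nat.mul_lt_mul_of_pos_left hlt (by omega)
      have h4 : 2 * (m * (5 * K ^ 86)) = 10 * (K ^ 6 * (m * m)) := by rw [hm]; ring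
      have h5 : K ^ 6 * (2 * P) ≤ K ^ 6 * (9 * (m * m)) := Nat.mul_le_mul_left _ hPup
      have h6 : K ^ 6 * (9 * (m * m)) = 9 * (K ^ 6 * (m * m)) := by ring
      have h7 : K ^ 6 * (2 * P) = 2 * (K ^ 6 * P) := by ring
      omega
    have hW2 : m ≤ 4 * W.prod := by
      by_contra hlt
      push Not at hlt
      have h1 : P ≤ m * W.prod := by rw [hPZW]; exact Nat.mul_le_mul_right _ z1
      have h2 : m * (4 * W.prod) < m * m := Nat.mul_lt_mul_of_pos_left hlt (by omega)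
      have h3 : m * (4 * W.prod) = 4 * (m * W.prod) := by ring
      omega
    have hdivZ : (s * (s - 1) - v Y) / (2 * W.prod) = Z.prod := by
      have h1 : s * (s - 1) - v Y = (2 * W.prod) * Z.prod := by
        have h2 : s * (s - 1) = 2 * P + v Y := hE.symm
        rw [h2, hPZW]
        have h3 : 2 * (Z.prod * W.prod) = (2 * W.prod) * Z.prod := by ring
        omega
      rw [h1, Nat.mul_div_cancel_left _ (by omega)]
    unfold SF
    rw [Finset.mem_biUnion]
    refine ⟨W, ?_, ?_⟩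
    · rw [Finset.mem_filter, Set.Finite.mem_toFinset]
      exact ⟨⟨hBW, hW1⟩, hW2⟩
    · rw [Finset.mem_biUnion]
      refine ⟨v Y, Finset.mem_range.mpr (by omega), ?_⟩
      rw [Finset.mem_biUnion]
      refine ⟨s, mem_Rt.mpr ⟨hs3, ?_⟩, ?_⟩
      · rw [hsV, hPZW]
        push_cast
        exact Dvd.dvd.mul_left (Dvd.intro_left _ rfl) _
      · rw [hdivZ, if_pos hbad, Finset.mem_image]
        refine ⟨Z, mem_Fs.mpr ⟨hBZ, rfl⟩, ?_⟩
        rw [← hW]
        ext1
        · show s - u Y = n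
          omega
        · rfl

end Pool.Agent.X34.S2
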