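import Pool.Agent.X34.S2.Large
import Pool.Agent.X34.S2.Small

set_option autoImplicit false

/-! For large `K` some `n` in `[K ^ 80, 2 K ^ 80)` has fewer than `K ^ 79` solutions. -/

namespace Pool.Agent.X34.S2

open Finset

theorem upper : ∃ K0 : ℕ, ∀ K ≥ K0, ∃ n : ℕ, K ^ 80 ≤ n ∧ n < 2 * K ^ 80 ∧
    (Sol n).ncard < K ^ 79 := by
  obtain ⟨K1, hK1⟩ := divisors_le 400
  obtain ⟨K2, hK2⟩ := MS_card 400 (by norm_num)
  obtain ⟨K3, hK3⟩ := card_lt
  refine ⟨K1 + K2 + K3 + 1000, fun K hK => ?_⟩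
  have hK0 : 0 < K := by omega
  have hdiv := hK1 K (by omega)
  have hMS := hK2 K (by omega)
  have hcl := hK3 K (by omega)
  by_contra hno
  push Not at hno
  have hp1 : 1000 ≤ K ^ 80 := by
    have h : K ^ 1 ≤ K ^ 80 := Nat.pow_le_pow_right hK0 (by norm_num)
    rw [pow_one] at h
    omega
  have hsmall : ∀ a b : ℕ, a ≤ 1000 → b ≤ 399 → a * K ^ b ≤ K ^ 400 := by
    intro a b ha hb
    calc a * K ^ b ≤ K * K ^ b := Nat.mul_le_mul_right _ (by omega)
      _ = K ^ (b + 1) := by rw [pow_succ']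
      _ ≤ K ^ 400 := Nat.pow_le_pow_right hK0 (by omega)
  -- cardinalities of the covers
  have c1 : (LF (19 * K ^ 156)).card ≤ 19 * K ^ 158 := by
    have h1 := card_LF_le (X := 19 * K ^ 156) hdiv (by
      have : 19 * K ^ 156 * (19 * K ^ 156) = 361 * K ^ 312 := by ring
      rw [this]
      exact hsmall 361 312 (by norm_num) (by norm_num)) (hMS _ (hsmall 19 156 (by norm_num) (by norm_num)))
    have h2 : K * (19 * K ^ 156) * K = 19 * K ^ 158 := by ring
    omega
  have c2 : (Ex K).card ≤ 40 * K ^ 75 := card_Ex_le (by omega) (by norm_num) hdiv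
    (hMS _ (Nat.pow_le_pow_right hK0 (by norm_num)))
  have c3 : (SF K).card ≤ 370 * K ^ 148 := card_SF_le (by omega) (by norm_num) hdiv
    (hMS _ (hsmall 5 86 (by norm_num) (by norm_num)))
  -- the set of pairs
  have hfin : ∀ n ∈ Finset.Ico (K ^ 80) (2 * K ^ 80), (Sol n).Finite := by
    intro n hn
    have := (Finset.mem_Ico.mp hn).1
    exact Sol_finite (by omega)
  classical
  set I := (Finset.Ico (K ^ 80) (2 * K ^ 80)) \ (Ex K) with hI
  set F : ℕ → Finset (ℕ × Multiset ℕ) := fun n =>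
    if h : (Sol n).Finite then h.toFinset.image (fun Y => (n, Y)) else ∅ with hF
  have hFc : ∀ n ∈ I, K ^ 79 ≤ (F n).card := by
    intro n hn
    have hn1 := (Finset.mem_sdiff.mp hn).1
    have h1 := hfin n hn1
    have h2 : (F n).card = (Sol n).ncard := by
      simp only [hF, dif_pos h1]
      rw [Finset.card_image_of_injective _ (fun a b hab => (Prod.mk.inj hab).2),
        ← Set.ncard_eq_toFinset_card _ h1]
    rw [h2]
    obtain ⟨h3, h4⟩ := Finset.mem_Ico.mp hn1
    exact hno n h3 h4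
  have hdisj : (I.biUnion F).card = ∑ n ∈ I, (F n).card := by
    apply Finset.card_biUnion
    intro a _ b _ hab
    rw [Function.onFun, Finset.disjoint_left]
    intro x h1 h2
    have g1 : x.1 = a := by
      simp only [hF] at h1
      split_ifs at h1 with h
      · obtain ⟨Y, -, rfl⟩ := Finset.mem_image.mp h1
        rfl
      · simp at h1
    have g2 : x.1 = b := by
      simp only [hF] at h2
      split_ifs at h2 with h
      · obtain ⟨Y, -, rfl⟩ := Finset.mem_image.mp h2
        rfl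
      · simp at h2
    exact hab (g1.symm.trans g2)
  have hsub : I.biUnion F ⊆ LF (19 * K ^ 156) ∪ SF K := by
    intro x hx
    obtain ⟨n, hn, hx⟩ := Finset.mem_biUnion.mp hx
    obtain ⟨hn1, hn2⟩ := Finset.mem_sdiff.mp hn
    obtain ⟨h3, h4⟩ := Finset.mem_Ico.mp hn1
    have h1 := hfin n hn1
    simp only [hF, dif_pos h1] at hx
    obtain ⟨Y, hY, rfl⟩ := Finset.mem_image.mp hx
    rw [Set.Finite.mem_toFinset] at hY
    have hn3 : 3 ≤ n := by omega
    have hcard := hcl n hn3 h4 Y hY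
    obtain ⟨z, Y', rfl, hz⟩ := exists_max (Sol_ne_zero hn3 hY)
    rw [Finset.mem_union]
    by_cases hz6 : K ^ 6 ≤ z
    · left
      apply mem_LF hn3 hY
      apply large_prod (by omega) hn3 h4 hY hz _ hz6
      rw [Multiset.card_cons] at hcard
      omega
    · push Not at hz6
      rcases mem_small (by omega) h3 h4 hY hcard.le (by
        intro y hy
        rcases Multiset.mem_cons.mp hy with h | h
        · omega
        · have := hz y h
          omega) with h5 | h5
      · exact absurd h5 hn2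
      · right; exact h5
  have t1 : I.card * K ^ 79 ≤ ∑ n ∈ I, (F n).card := by
    have := Finset.sum_le_sum hFc
    rwa [Finset.sum_const, smul_eq_mul] at this
  have t2 : (I.biUnion F).card ≤ 19 * K ^ 158 + 370 * K ^ 148 :=
    (Finset.card_le_card hsub).trans ((Finset.card_union_le _ _).trans (by omega))
  have t3 : K ^ 80 ≤ I.card + 40 * K ^ 75 := by
    have h1 := Finset.le_card_sdiff (Ex K) (Finset.Ico (K ^ 80) (2 * K ^ 80))
    rw [Nat.card_Ico, ← hI] at h1
    omega
  have t4 : K ^ 80 * K ^ 79 ≤ 19 * K ^ 158 + 370 * K ^ 148 + 40 * K ^ 154 := by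
    have h1 := Nat.mul_le_mul_right (K ^ 79) t3
    have h2 : (I.card + 40 * K ^ 75) * K ^ 79 = I.card * K ^ 79 + 40 * K ^ 154 := by ring
    omega
  have t5 : K ^ 80 * K ^ 79 = K * K ^ 158 := by ring
  have t6 : K ^ 148 ≤ K ^ 158 := Nat.pow_le_pow_right hK0 (by norm_num)
  have t7 : K ^ 154 ≤ K ^ 158 := Nat.pow_le_pow_right hK0 (by norm_num)
  have t8 : 1000 * K ^ 158 ≤ K * K ^ 158 := Nat.mul_le_mul_right _ (by omega)
  have t9 : 0 < K ^ 158 := Nat.pow_pos hK0
  omega

end Pool.Agent.X34.S2
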